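import Mathlib.Analysis.Calculus.MeanValue
import Mathlib.Analysis.Calculus.Deriv.MeanValue
import Mathlib.Analysis.SpecialFunctions.Trigonometric.Deriv
import Mathlib.Analysis.SpecialFunctions.Trigonometric.Bounds
import Mathlib.MeasureTheory.Integral.IntervalIntegral.FundThmCalculus

set_option autoImplicit false

open Filter Topology Set

namespace Pool.Agent.H62.Bm

lemma monoOn_of_hasDerivAt {f f' : ℝ → ℝ} {S : Set ℝ} (hS : Convex ℝ S)
    (hf : ∀ t, HasDerivAt f (f' t) t) (h : ∀ t ∈ S, 0 ≤ f' t) : MonotoneOn f S := by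
  apply monotoneOn_of_deriv_nonneg hS
    (fun t _ => (hf t).continuousAt.continuousWithinAt)
    (fun t _ => (hf t).differentiableAt.differentiableWithinAt)
  intro t ht
  rw [(hf t).deriv]
  exact h t (interior_subset ht)

/-- The basic estimate: `Q' = e U' cos Θ` with `U` increasing from `-1` to `1` and `Θ` slowly
varying is incompatible with `Q → 0` at both ends. -/
theorem core_contradiction (U Q Th U' Th' : ℝ → ℝ) (e t0 : ℝ) (he : 0 < e)
    (hU : ∀ t, HasDerivAt U (U' t) t) (hTh : ∀ t, HasDerivAt Th (Th' t) t)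
    (hQ : ∀ t, HasDerivAt Q (e * U' t * Real.cos (Th t)) t)
    (hU' : ∀ t, 0 ≤ U' t) (hUbot : Tendsto U atBot (𝓝 (-1))) (hUtop : Tendsto U atTop (𝓝 1))
    (hQbot : Tendsto Q atBot (𝓝 0)) (hQtop : Tendsto Q atTop (𝓝 0))
    (hU0 : U t0 = 0) (hTh0 : Th t0 = 0)
    (hslow : ∀ t, |U t| ≤ 3 / 4 → |Th' t| ≤ U' t) : False := by
  have hUc : Continuous U := continuous_iff_continuousAt.mpr fun t => (hU t).continuousAt
  have hThc : Continuous Th := continuous_iff_continuousAt.mpr fun t => (hTh t).continuousAt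
  have hQc : Continuous Q := continuous_iff_continuousAt.mpr fun t => (hQ t).continuousAt
  have hUmono : Monotone U := monotone_of_hasDerivAt_nonneg (f' := U') hU hU'
  have hWmono : Monotone (fun t => Q t + e * U t) := by
    apply monotone_of_hasDerivAt_nonneg
      (f' := fun t => e * U' t * Real.cos (Th t) + e * U' t)
    · intro t
      exact (hQ t).add ((hU t).const_mul e)
    · intro t
      have h1 := Real.neg_one_le_cos (Th t)
      have h2 := mul_nonneg he.le (hU' t)
      have : e * U' t * Real.cos (Th t) + e * U' t = (e * U' t) * (1 + Real.cos (Th t)) := by ring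
      show 0 ≤ e * U' t * Real.cos (Th t) + e * U' t
      rw [this]
      exact mul_nonneg h2 (by linarith)
  -- the times t1, t2
  obtain ⟨t1, ht1⟩ : ∃ t1, U t1 = -(3 / 4) := by
    have h1 : ∀ᶠ t in atBot, U t < -(3 / 4) := hUbot.eventually (gt_mem_nhds (by norm_num))
    obtain ⟨a, ha⟩ := h1.exists
    exact mem_range_of_exists_le_of_exists_ge hUc ⟨a, ha.le⟩ ⟨t0, by rw [hU0]; norm_num⟩
  obtain ⟨t2, ht2⟩ : ∃ t2, U t2 = 3 / 4 := by
    have h1 : ∀ᶠ t in atTop, 3 / 4 < U t := hUtop.eventually (lt_mem_nhds (by norm_num))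
    obtain ⟨a, ha⟩ := h1.exists
    exact mem_range_of_exists_le_of_exists_ge hUc ⟨t0, by rw [hU0]; norm_num⟩ ⟨a, ha.le⟩
  have h10 : t1 ≤ t0 := by
    by_contra hcon
    push Not at hcon
    have := hUmono hcon.le
    rw [ht1, hU0] at this
    norm_num at this
  have h02 : t0 ≤ t2 := by
    by_contra hcon
    push Not at hcon
    have := hUmono hcon.le
    rw [ht2, hU0] at this
    norm_num at this
  have hUabs : ∀ t ∈ Icc t1 t2, |U t| ≤ 3 / 4 := by
    intro t ht
    rw [abs_le]
    constructor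
    · rw [← ht1]; exact hUmono ht.1
    · rw [← ht2]; exact hUmono ht.2
  -- Θ - U is antitone and Θ + U is monotone on [t1, t2]
  have hmono1 : MonotoneOn (fun t => Th t + U t) (Icc t1 t2) := by
    apply monoOn_of_hasDerivAt (convex_Icc _ _) (f' := fun t => Th' t + U' t)
      (fun t => (hTh t).add (hU t))
    intro t ht
    have := hslow t (hUabs t ht)
    rw [abs_le] at this
    show 0 ≤ Th' t + U' t
    linarith [this.1]
  have hmono2 : MonotoneOn (fun t => U t - Th t) (Icc t1 t2) := by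
    apply monoOn_of_hasDerivAt (convex_Icc _ _) (f' := fun t => U' t - Th' t)
      (fun t => (hU t).sub (hTh t))
    intro t ht
    have := hslow t (hUabs t ht)
    rw [abs_le] at this
    show 0 ≤ U' t - Th' t
    linarith [this.2]
  have ht0mem : t0 ∈ Icc t1 t2 := ⟨h10, h02⟩
  have hThabs : ∀ t ∈ Icc t1 t2, |Th t| ≤ 3 / 4 := by
    intro t ht
    have hu := abs_le.mp (hUabs t ht)
    rcases le_total t0 t with h | h
    · have a := hmono1 ht0mem ht h
      have b := hmono2 ht0mem ht h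
      simp only [hTh0, hU0] at a b
      rw [abs_le]; constructor <;> linarith [hu.1, hu.2]
    · have a := hmono1 ht ht0mem h
      have b := hmono2 ht ht0mem h
      simp only [hTh0, hU0] at a b
      rw [abs_le]; constructor <;> linarith [hu.1, hu.2]
  have hcos : ∀ t ∈ Icc t1 t2, 1 / 2 ≤ Real.cos (Th t) := by
    intro t ht
    have h1 := Real.one_sub_sq_div_two_le_cos (x := Th t)
    have h2 := abs_le.mp (hThabs t ht)
    nlinarith [h2.1, h2.2]
  have hmono3 : MonotoneOn (fun t => Q t - e / 2 * U t) (Icc t1 t2) := by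
    apply monoOn_of_hasDerivAt (convex_Icc _ _)
      (f' := fun t => e * U' t * Real.cos (Th t) - e / 2 * U' t)
      (fun t => (hQ t).sub ((hU t).const_mul (e / 2)))
    intro t ht
    show 0 ≤ e * U' t * Real.cos (Th t) - e / 2 * U' t
    have h2 := hcos t ht
    have h3 := mul_nonneg he.le (hU' t)
    nlinarith
  have h12 : t1 ≤ t2 := h10.trans h02
  have hA := hmono3 (left_mem_Icc.mpr h12) (right_mem_Icc.mpr h12) h12
  simp only [ht1, ht2] at hA
  -- limits
  have hWbot : Tendsto (fun t => Q t + e * U t) atBot (𝓝 (0 + e * (-1))) :=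
    hQbot.add (hUbot.const_mul e)
  have hWtop : Tendsto (fun t => Q t + e * U t) atTop (𝓝 (0 + e * 1)) :=
    hQtop.add (hUtop.const_mul e)
  have hB : 0 + e * (-1) ≤ Q t1 + e * U t1 := hWmono.le_of_tendsto hWbot t1
  have hC : Q t2 + e * U t2 ≤ 0 + e * 1 := hWmono.ge_of_tendsto hWtop t2
  rw [ht1] at hB
  rw [ht2] at hC
  linarith

lemma const_sign {g : ℝ → ℝ} {S : Set ℝ} (hS : S.OrdConnected) (hg : Continuous g)
    (h0 : ∀ t ∈ S, g t ≠ 0) : (∀ t ∈ S, 0 < g t) ∨ (∀ t ∈ S, g t < 0) := by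
  by_contra hcon
  push Not at hcon
  obtain ⟨⟨a, ha, hga⟩, ⟨b, hb, hgb⟩⟩ := hcon
  have hpre : IsPreconnected S := hS.isPreconnected
  have := hpre.intermediate_value ha hb hg.continuousOn
  obtain ⟨c, hc, hgc⟩ := this ⟨hga, hgb⟩
  exact h0 c hc hgc

/-- No orbit of the explicit system converges to the zeros of the field at both ends. -/
theorem orbit_contradiction (m : ℕ) (hm : 1 ≤ m) (c ε : ℝ) (hc : c = (1 / 2) ^ (m + 1)) (hε : 0 < ε)
    (hε' : ε ≤ 1 / 16) (u w h x y lam : ℝ → ℝ) (hlam : ∀ t, 0 < lam t) (hlamc : Continuous lam)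
    (hcirc : ∀ t, u t ^ 2 + w t ^ 2 = 1) (hw0 : ∀ t, w t ≠ 0) (hwc : Continuous w)
    (hy1 : ∀ t, y t ^ 2 ≤ 1)
    (hu : ∀ t, HasDerivAt u (-(2 * lam t * h t * w t ^ (m + 1))) t)
    (hh : ∀ t, HasDerivAt h (lam t * ε * w t ^ (m + 1) * y t) t)
    (hx : ∀ t, HasDerivAt x (-(lam t * (c * (u t ^ 2 + w t ^ (2 * m)) * y t))) t)
    (hy : ∀ t, HasDerivAt y
      (lam t * (c * (u t ^ 2 + w t ^ (2 * m)) * x t - ε * w t ^ (m + 1) * h t)) t)
    (up ub : ℝ) (hup : up ^ 2 = 1) (hub : ub ^ 2 = 1)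
    (hutop : Tendsto u atTop (𝓝 up)) (hubot : Tendsto u atBot (𝓝 ub))
    (hxtop : Tendsto x atTop (𝓝 0)) (hxbot : Tendsto x atBot (𝓝 0))
    (hytop : Tendsto y atTop (𝓝 0)) (hybot : Tendsto y atBot (𝓝 0))
    (hhbot : Tendsto (fun t => h t ^ 2) atBot (𝓝 1)) : False := by
  have hucont : Continuous u := continuous_iff_continuousAt.mpr fun t => (hu t).continuousAt
  have hhcont : Continuous h := continuous_iff_continuousAt.mpr fun t => (hh t).continuousAt
  have hxcont : Continuous x := continuous_iff_continuousAt.mpr fun t => (hx t).continuousAt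
  have hycont : Continuous y := continuous_iff_continuousAt.mpr fun t => (hy t).continuousAt
  have huabs : ∀ t, |u t| ≤ 1 := by
    intro t
    rw [abs_le_one_iff_mul_self_le_one]
    nlinarith [hcirc t, sq_nonneg (w t)]
  have hyabs : ∀ t, |y t| ≤ 1 := by
    intro t
    rw [abs_le_one_iff_mul_self_le_one]
    nlinarith [hy1 t]
  have hwsign : (∀ t ∈ (univ : Set ℝ), 0 < w t ^ (m + 1)) ∨
      (∀ t ∈ (univ : Set ℝ), w t ^ (m + 1) < 0) :=
    const_sign ordConnected_univ (hwc.pow _) (fun t _ => pow_ne_zero _ (hw0 t))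
  -- the auxiliary function K
  have hK : ∀ σ : ℝ, ∀ t, HasDerivAt (fun t => h t ^ 2 + ε * (σ * u t))
      (ε * (-(2 * lam t * h t * w t ^ (m + 1))) * (σ - y t)) t := by
    intro σ t
    have h1 := ((hh t).mul (hh t)).add (((hu t).const_mul σ).const_mul ε)
    have h2 : (fun t => h t ^ 2 + ε * (σ * u t)) = (h * h) + fun t => ε * (σ * u t) := by
      funext t
      simp only [Pi.add_apply, Pi.mul_apply]
      ring
    rw [h2]
    exact h1.congr_deriv (by ring)
  -- sign of u' on a set where h has no zero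
  have hsgn : ∀ S : Set ℝ, S.OrdConnected → (∀ t ∈ S, h t ≠ 0) →
      ∃ σ : ℝ, (σ = 1 ∨ σ = -1) ∧ ∀ t ∈ S, 0 < σ * (-(2 * lam t * h t * w t ^ (m + 1))) := by
    intro S hS hne
    rcases const_sign hS hhcont hne with hp | hn
    · rcases hwsign with wp | wn
      · refine ⟨-1, Or.inr rfl, fun t ht => ?_⟩
        have := mul_pos (mul_pos (hlam t) (hp t ht)) (wp t (mem_univ t))
        linarith
      · refine ⟨1, Or.inl rfl, fun t ht => ?_⟩
        have := mul_neg_of_pos_of_neg (mul_pos (hlam t) (hp t ht)) (wn t (mem_univ t))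
        linarith
    · rcases hwsign with wp | wn
      · refine ⟨1, Or.inl rfl, fun t ht => ?_⟩
        have := mul_neg_of_neg_of_pos (mul_neg_of_pos_of_neg (hlam t) (hn t ht)) (wp t (mem_univ t))
        linarith
      · refine ⟨-1, Or.inr rfl, fun t ht => ?_⟩
        have := mul_pos_of_neg_of_neg (mul_neg_of_pos_of_neg (hlam t) (hn t ht))
          (wn t (mem_univ t))
        linarith
  have hKnonneg : ∀ σ : ℝ, (σ = 1 ∨ σ = -1) → ∀ t,
      0 ≤ σ * (-(2 * lam t * h t * w t ^ (m + 1))) →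
      0 ≤ ε * (-(2 * lam t * h t * w t ^ (m + 1))) * (σ - y t) := by
    intro σ hσ t ht
    have hya := abs_le.mp (hyabs t)
    rcases hσ with rfl | rfl
    · have h1 : 0 ≤ (1 : ℝ) - y t := by linarith [hya.2]
      have h2 : 0 ≤ ε * (-(2 * lam t * h t * w t ^ (m + 1))) := by
        apply mul_nonneg hε.le; linarith
      exact mul_nonneg h2 h1
    · have h1 : (-1 : ℝ) - y t ≤ 0 := by linarith [hya.1]
      have h2 : ε * (-(2 * lam t * h t * w t ^ (m + 1))) ≤ 0 := by
        apply mul_nonpos_of_nonneg_of_nonpos hε.le; linarith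
      exact mul_nonneg_of_nonpos_of_nonpos h2 h1
  have hKbot : ∀ σ : ℝ, Tendsto (fun t => h t ^ 2 + ε * (σ * u t)) atBot
      (𝓝 (1 + ε * (σ * ub))) := by
    intro σ
    exact hhbot.add ((hubot.const_mul σ).const_mul ε)
  have hubabs : |ub| ≤ 1 := by
    rw [abs_le_one_iff_mul_self_le_one]; nlinarith
  have hσb : ∀ σ : ℝ, (σ = 1 ∨ σ = -1) → ∀ r : ℝ, |r| ≤ 1 → -1 ≤ σ * r ∧ σ * r ≤ 1 := by
    intro σ hσ r hr
    have := abs_le.mp hr
    rcases hσ with rfl | rfl
    · constructor <;> linarith [this.1, this.2]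
    · constructor <;> linarith [this.1, this.2]
  -- h never vanishes
  have hne : ∀ t, h t ≠ 0 := by
    by_contra hcon
    push Not at hcon
    obtain ⟨ts, hts⟩ := hcon
    have hev : ∀ᶠ t in atBot, 1 / 2 < h t ^ 2 := hhbot.eventually (lt_mem_nhds (by norm_num))
    obtain ⟨A, hA⟩ := (eventually_atBot.mp hev)
    let S : Set ℝ := {t | h t = 0}
    have hSclosed : IsClosed S := isClosed_eq hhcont continuous_const
    have hSne : S.Nonempty := ⟨ts, hts⟩
    have hSbdd : BddBelow S := by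
      refine ⟨A, fun t ht => ?_⟩
      by_contra hlt
      push Not at hlt
      have h1 := hA t hlt.le
      have h2 : h t = 0 := ht
      rw [h2] at h1
      norm_num at h1
    let t0 := sInf S
    have ht0 : h t0 = 0 := hSclosed.csInf_mem hSne hSbdd
    have hbefore : ∀ t ∈ Iio t0, h t ≠ 0 := by
      intro t ht h0
      have := csInf_le hSbdd (show t ∈ S from h0)
      exact absurd ht (not_lt.mpr this)
    obtain ⟨σ, hσ, hσpos⟩ := hsgn (Iio t0) ordConnected_Iio hbefore
    have hmono : MonotoneOn (fun t => h t ^ 2 + ε * (σ * u t)) (Iic t0) := by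
      apply monoOn_of_hasDerivAt (convex_Iic _) (hK σ)
      intro t ht
      apply hKnonneg σ hσ t
      rcases (lt_or_eq_of_le ht : t < t0 ∨ t = t0) with hlt | heq
      · exact (hσpos t hlt).le
      · rw [heq, ht0]; simp
    have h1 : 1 + ε * (σ * ub) ≤ h t0 ^ 2 + ε * (σ * u t0) := by
      apply le_of_tendsto (hKbot σ)
      filter_upwards [eventually_le_atBot t0] with t ht
      exact hmono ht (mem_Iic.mpr le_rfl) ht
    rw [ht0] at h1
    have h2 := hσb σ hσ ub hubabs
    have h3 := hσb σ hσ (u t0) (huabs t0)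
    nlinarith
  obtain ⟨σ, hσ, hσpos⟩ := hsgn univ ordConnected_univ (fun t _ => hne t)
  have hKmono : Monotone (fun t => h t ^ 2 + ε * (σ * u t)) :=
    monotone_of_hasDerivAt_nonneg (hK σ)
      (fun t => hKnonneg σ hσ t (hσpos t (mem_univ t)).le)
  have hhlow : ∀ t, 1 / 4 ≤ h t ^ 2 := by
    intro t
    have h1 := hKmono.le_of_tendsto (hKbot σ) t
    have h2 := hσb σ hσ ub hubabs
    have h3 := hσb σ hσ (u t) (huabs t)
    nlinarith
  -- U = σ u
  let U : ℝ → ℝ := fun t => σ * u t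
  let U' : ℝ → ℝ := fun t => σ * (-(2 * lam t * h t * w t ^ (m + 1)))
  have hU : ∀ t, HasDerivAt U (U' t) t := fun t => (hu t).const_mul σ
  have hUpos : ∀ t, 0 < U' t := fun t => hσpos t (mem_univ t)
  have hUmono : Monotone U := monotone_of_hasDerivAt_nonneg hU (fun t => (hUpos t).le)
  have hUlt : ∀ t, -1 < U t ∧ U t < 1 := by
    intro t
    have h1 : U t ^ 2 < 1 := by
      have h2 : U t ^ 2 = u t ^ 2 := by
        rcases hσ with h | h <;> simp [U, h]
      rw [h2]
      have := hcirc t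
      have h3 : 0 < w t ^ 2 := by positivity [hw0 t]
      linarith
    constructor <;> nlinarith
  have hUtop : Tendsto U atTop (𝓝 (σ * up)) := hutop.const_mul σ
  have hUbot : Tendsto U atBot (𝓝 (σ * ub)) := hubot.const_mul σ
  have hσ2 : σ ^ 2 = 1 := by rcases hσ with h | h <;> rw [h] <;> norm_num
  have e1 : σ * up = 1 := by
    have h1 : U 0 ≤ σ * up := hUmono.ge_of_tendsto hUtop 0
    have h2 : (σ * up) ^ 2 = 1 := by rw [mul_pow, hσ2, hup]; norm_num
    have h3 := (hUlt 0).1
    have h4 : (σ * up - 1) * (σ * up + 1) = 0 := by linear_combination h2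
    rcases mul_eq_zero.mp h4 with h | h
    · linarith
    · linarith
  have e2 : σ * ub = -1 := by
    have h1 : σ * ub ≤ U 0 := hUmono.le_of_tendsto hUbot 0
    have h2 : (σ * ub) ^ 2 = 1 := by rw [mul_pow, hσ2, hub]; norm_num
    have h3 := (hUlt 0).2
    have h4 : (σ * ub - 1) * (σ * ub + 1) = 0 := by linear_combination h2
    rcases mul_eq_zero.mp h4 with h | h
    · linarith
    · linarith
  rw [e1] at hUtop
  rw [e2] at hUbot
  have hUc : Continuous U := continuous_iff_continuousAt.mpr fun t => (hU t).continuousAt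
  obtain ⟨t0, ht0⟩ : ∃ t0, U t0 = 0 := by
    have h1 : ∀ᶠ t in atBot, U t < 0 := hUbot.eventually (gt_mem_nhds (by norm_num))
    have h2 : ∀ᶠ t in atTop, 0 < U t := hUtop.eventually (lt_mem_nhds (by norm_num))
    obtain ⟨a, ha⟩ := h1.exists
    obtain ⟨b, hb⟩ := h2.exists
    exact mem_range_of_exists_le_of_exists_ge hUc ⟨a, ha.le⟩ ⟨b, hb.le⟩
  -- the phase
  let Th' : ℝ → ℝ := fun t => lam t * (c * (u t ^ 2 + w t ^ (2 * m)))
  have hTh'c : Continuous Th' := by
    apply hlamc.mul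
    exact continuous_const.mul ((hucont.pow 2).add (hwc.pow _))
  let Th : ℝ → ℝ := fun t => ∫ s in t0..t, Th' s
  have hTh : ∀ t, HasDerivAt Th (Th' t) t := fun t =>
    intervalIntegral.integral_hasDerivAt_right (hTh'c.intervalIntegrable _ _)
      (hTh'c.stronglyMeasurableAtFilter _ _) hTh'c.continuousAt
  have hTh0 : Th t0 = 0 := by simp [Th]
  let Q : ℝ → ℝ := fun t => σ * (y t * Real.cos (Th t) - x t * Real.sin (Th t))
  have hQ : ∀ t, HasDerivAt Q (ε / 2 * U' t * Real.cos (Th t)) t := by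
    intro t
    have h1 := ((((hy t).mul (hTh t).cos).sub ((hx t).mul (hTh t).sin))).const_mul σ
    exact h1.congr_deriv (by simp only [U', Th']; ring)
  have hQsmall : ∀ t, ‖Q t‖ ≤ |y t| + |x t| := by
    intro t
    have h1 : ‖Q t‖ = |y t * Real.cos (Th t) - x t * Real.sin (Th t)| := by
      rw [Real.norm_eq_abs]
      simp only [Q]
      rw [abs_mul]
      have : |σ| = 1 := by rcases hσ with h | h <;> rw [h] <;> norm_num
      rw [this, one_mul]
    rw [h1]
    have h2 : |y t * Real.cos (Th t) - x t * Real.sin (Th t)| ≤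
        |y t * Real.cos (Th t)| + |x t * Real.sin (Th t)| := abs_sub _ _
    rw [abs_mul, abs_mul] at h2
    have h3 := Real.abs_cos_le_one (Th t)
    have h4 := Real.abs_sin_le_one (Th t)
    have h5 := abs_nonneg (y t)
    have h6 := abs_nonneg (x t)
    nlinarith
  have hQtop : Tendsto Q atTop (𝓝 0) := by
    apply squeeze_zero_norm hQsmall
    have := hytop.abs.add hxtop.abs
    simpa using this
  have hQbot : Tendsto Q atBot (𝓝 0) := by
    apply squeeze_zero_norm hQsmall
    have := hybot.abs.add hxbot.abs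
    simpa using this
  refine core_contradiction U Q Th U' Th' (ε / 2) t0 (by positivity) hU hTh hQ
    (fun t => (hUpos t).le) hUbot hUtop hQbot hQtop ht0 hTh0 ?_
  intro t ht
  -- |Θ'| ≤ U'
  have hU2 : U t ^ 2 = u t ^ 2 := by
    rcases hσ with h | h <;> simp [U, h]
  have hu2 : u t ^ 2 ≤ 9 / 16 := by
    rw [← hU2]
    have := abs_le.mp ht
    nlinarith [this.1, this.2]
  have hw2 : 1 / 4 ≤ w t ^ 2 := by linarith [hcirc t]
  have hwabs : 1 / 2 ≤ |w t| := by
    have h1 : (1 / 2 : ℝ) ^ 2 ≤ |w t| ^ 2 := by rw [sq_abs]; linarith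
    exact le_of_sq_le_sq h1 (abs_nonneg _)
  have hhabs : 1 / 2 ≤ |h t| := by
    have h1 : (1 / 2 : ℝ) ^ 2 ≤ |h t| ^ 2 := by rw [sq_abs]; linarith [hhlow t]
    exact le_of_sq_le_sq h1 (abs_nonneg _)
  have hwpow : c ≤ |w t| ^ (m + 1) := by
    rw [hc]
    exact pow_le_pow_left₀ (by norm_num) hwabs _
  have hN : u t ^ 2 + w t ^ (2 * m) ≤ 1 := by
    have h1 : w t ^ (2 * m) = (w t ^ 2) ^ m := by rw [pow_mul]
    have h2 : w t ^ 2 ≤ 1 := by nlinarith [hcirc t, sq_nonneg (u t)]
    have h3 : (w t ^ 2) ^ m ≤ w t ^ 2 := by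
      calc (w t ^ 2) ^ m ≤ (w t ^ 2) ^ 1 :=
            pow_le_pow_of_le_one (sq_nonneg _) h2 hm
        _ = w t ^ 2 := pow_one _
    rw [h1]
    linarith [hcirc t]
  have hN0 : 0 ≤ u t ^ 2 + w t ^ (2 * m) := by
    have : w t ^ (2 * m) = (w t ^ m) ^ 2 := by rw [mul_comm, pow_mul]
    rw [this]; positivity
  have hcpos : 0 < c := by rw [hc]; positivity
  have hThle : |Th' t| ≤ lam t * c := by
    have h1 : 0 ≤ Th' t := mul_nonneg (hlam t).le (mul_nonneg hcpos.le hN0)
    rw [abs_of_nonneg h1]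
    show lam t * (c * (u t ^ 2 + w t ^ (2 * m))) ≤ lam t * c
    apply mul_le_mul_of_nonneg_left _ (hlam t).le
    nlinarith
  have hU'abs : U' t = 2 * lam t * |h t| * |w t| ^ (m + 1) := by
    have h1 : U' t = |U' t| := (abs_of_pos (hUpos t)).symm
    rw [h1]
    show |σ * (-(2 * lam t * h t * w t ^ (m + 1)))| = _
    have h2 : |σ| = 1 := by rcases hσ with h | h <;> rw [h] <;> norm_num
    rw [abs_mul, h2, one_mul, abs_neg, abs_mul, abs_mul, abs_mul, abs_pow,
      abs_of_pos (hlam t)]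
    norm_num
  rw [hU'abs]
  refine hThle.trans ?_
  have h1 : 1 ≤ 2 * |h t| := by linarith
  have h2 : lam t * c ≤ lam t * |w t| ^ (m + 1) := mul_le_mul_of_nonneg_left hwpow (hlam t).le
  have h3 : 0 ≤ lam t * |w t| ^ (m + 1) := by
    apply mul_nonneg (hlam t).le; positivity
  calc lam t * c ≤ 1 * (lam t * |w t| ^ (m + 1)) := by rw [one_mul]; exact h2
    _ ≤ (2 * |h t|) * (lam t * |w t| ^ (m + 1)) := mul_le_mul_of_nonneg_right h1 h3
    _ = 2 * lam t * |h t| * |w t| ^ (m + 1) := by ring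

end Pool.Agent.H62.Bm
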