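import Mathlib.Analysis.Calculus.ContDiff.Basic
import Mathlib.LinearAlgebra.FiniteDimensional.Basic

set_option autoImplicit false

open scoped ContDiff Topology

namespace Pool.Agent.H62.Bm

/-- Data of a closed submanifold `M = {F = 0}` of a finite-dimensional real normed space `E`, of a
hypersurface `Z = {z = 0}` of `M`, and of a `b^m`-form `α = f dz / z^m + β` of degree one on `M`
(`f` a function and `β` a one-form, both restricted from `E` to `M`). -/
structure BmForm (E G : Type) [NormedAddCommGroup E] [NormedSpace ℝ E] [NormedAddCommGroup G]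
    [NormedSpace ℝ G] where
  /-- the equation of the manifold `M` -/
  F : E → G
  /-- the defining function of the critical set `Z` -/
  z : E → ℝ
  /-- the coefficient of `dz / z^m` -/
  f : E → ℝ
  /-- the smooth part -/
  β : E → (E →L[ℝ] ℝ)

namespace BmForm

variable {E G : Type} [NormedAddCommGroup E] [NormedSpace ℝ E] [NormedAddCommGroup G]
  [NormedSpace ℝ G] (D : BmForm E G)

/-- The manifold `M`. -/
def M : Set E := {p | D.F p = 0}

/-- The critical set `Z`. -/
def Z : Set E := {p | D.F p = 0 ∧ D.z p = 0}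

/-- The fibre at `p` of the `b^m`-tangent bundle of `(M, Z)`: the pairs `(a, v)` with `v` tangent
to `M` at `p` and `dz(v) = a z(p)^m`.  The number `a` is the value of the `b^m`-form `dz / z^m`.
Off `Z` the pair is determined by `v`, which is any tangent vector of `M`; over `Z` the vector `v`
is tangent to `Z` and `a` is the (free) coefficient of `z^m ∂/∂z`. -/
def bTangent (m : ℕ) (p : E) : Set (ℝ × E) :=
  {q | fderiv ℝ D.F p q.2 = 0 ∧ fderiv ℝ D.z p q.2 = q.1 * D.z p ^ m}

/-- The value of `α = f dz / z^m + β` at `p` on an element of the `b^m`-tangent space. -/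
def α (p : E) (q : ℝ × E) : ℝ := D.f p * q.1 + D.β p q.2

/-- The value at `p` of `dα = df ∧ dz / z^m + dβ` on two elements of the `b^m`-tangent space. -/
noncomputable def dα (p : E) (q r : ℝ × E) : ℝ :=
  fderiv ℝ D.f p q.2 * r.1 - fderiv ℝ D.f p r.2 * q.1 +
    (fderiv ℝ D.β p q.2 r.2 - fderiv ℝ D.β p r.2 q.2)

/-- `(M, Z, α)` is a compact `b^m`-contact manifold of dimension `2 n + 1`: all data are smooth,
`0` is a regular value of `F`, the manifold `M` is compact, `Z` is nonempty and regularly cut out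
by `z` in `M`, and `α ∧ (dα)^n` is nowhere zero as a `b^m`-form.  The last condition is written in
the equivalent form: no nonzero element of a `b^m`-tangent space is annihilated by both `α` and
`dα`. -/
structure IsCompactBmContact (n m : ℕ) : Prop where
  smooth_F : ContDiff ℝ ∞ D.F
  smooth_z : ContDiff ℝ ∞ D.z
  smooth_f : ContDiff ℝ ∞ D.f
  smooth_β : ContDiff ℝ ∞ D.β
  finite : FiniteDimensional ℝ E
  regular : ∀ p ∈ D.M, Function.Surjective (fderiv ℝ D.F p)
  dimension : Module.finrank ℝ E = Module.finrank ℝ G + (2 * n + 1)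
  compact : IsCompact D.M
  connected : IsConnected D.M
  nonempty_Z : D.Z.Nonempty
  regular_Z : ∀ p ∈ D.Z, ∃ v : E, fderiv ℝ D.F p v = 0 ∧ fderiv ℝ D.z p v ≠ 0
  contact : ∀ p ∈ D.M, ∀ q ∈ D.bTangent m p, D.α p q = 0 →
    (∀ r ∈ D.bTangent m p, D.dα p q r = 0) → q = 0

/-- `v` is the value at `p` of the `b^m`-Reeb vector field of `α`, seen as a vector field on
`M`. -/
def IsReebVector (m : ℕ) (p v : E) : Prop :=
  ∃ a : ℝ, (a, v) ∈ D.bTangent m p ∧ D.α p (a, v) = 1 ∧
    ∀ r ∈ D.bTangent m p, D.dα p (a, v) r = 0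

/-- `γ` is a singular periodic orbit: an integral curve, defined for all times, of the `b^m`-Reeb
vector field in `M \ Z`, which has limits in `Z` for `t → + ∞` and for `t → - ∞`. -/
def IsSingularPeriodicOrbit (m : ℕ) (γ : ℝ → E) : Prop :=
  (∀ t, γ t ∈ D.M ∧ γ t ∉ D.Z) ∧
  (∀ t, ∃ v, D.IsReebVector m (γ t) v ∧ HasDerivAt γ v t) ∧
  (∃ p ∈ D.Z, Filter.Tendsto γ Filter.atTop (𝓝 p)) ∧
  (∃ p ∈ D.Z, Filter.Tendsto γ Filter.atBot (𝓝 p))

end BmForm

end Pool.Agent.H62.Bm
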