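import Pool.Agent.H62.BmDefs
import Mathlib.Analysis.Calculus.FDeriv.Mul
import Mathlib.Analysis.Calculus.FDeriv.Pow
import Mathlib.Analysis.Calculus.ContDiff.Operations
import Mathlib.Analysis.Calculus.FDeriv.Prod
import Mathlib.Analysis.Calculus.FDeriv.Add
import Mathlib.Tactic.Ring
import Mathlib.Tactic.Linarith

set_option autoImplicit false

open scoped ContDiff Topology

namespace Pool.Agent.H62.Bm

/-- ambient space, coordinates `(u, w, h, x, y)` -/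
abbrev EE (n : ℕ) : Type := ℝ × ℝ × ℝ × (Fin (n + 1) → ℝ) × (Fin (n + 1) → ℝ)

section coords
variable (n : ℕ)

noncomputable def pu : EE n →L[ℝ] ℝ := ContinuousLinearMap.fst ℝ ℝ _
noncomputable def pw : EE n →L[ℝ] ℝ :=
  (ContinuousLinearMap.fst ℝ ℝ _).comp (ContinuousLinearMap.snd ℝ ℝ _)
noncomputable def ph : EE n →L[ℝ] ℝ :=
  (ContinuousLinearMap.fst ℝ ℝ _).comp
    ((ContinuousLinearMap.snd ℝ ℝ _).comp (ContinuousLinearMap.snd ℝ ℝ _))
noncomputable def px (j : Fin (n + 1)) : EE n →L[ℝ] ℝ :=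
  (ContinuousLinearMap.proj j).comp ((ContinuousLinearMap.fst ℝ _ _).comp
    ((ContinuousLinearMap.snd ℝ ℝ _).comp
      ((ContinuousLinearMap.snd ℝ ℝ _).comp (ContinuousLinearMap.snd ℝ ℝ _))))
noncomputable def py (j : Fin (n + 1)) : EE n →L[ℝ] ℝ :=
  (ContinuousLinearMap.proj j).comp ((ContinuousLinearMap.snd ℝ _ _).comp
    ((ContinuousLinearMap.snd ℝ ℝ _).comp
      ((ContinuousLinearMap.snd ℝ ℝ _).comp (ContinuousLinearMap.snd ℝ ℝ _))))

variable {n}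
@[simp] lemma pu_apply (p : EE n) : pu n p = p.1 := rfl
@[simp] lemma pw_apply (p : EE n) : pw n p = p.2.1 := rfl
@[simp] lemma ph_apply (p : EE n) : ph n p = p.2.2.1 := rfl
@[simp] lemma px_apply (j : Fin (n + 1)) (p : EE n) : px n j p = p.2.2.2.1 j := rfl
@[simp] lemma py_apply (j : Fin (n + 1)) (p : EE n) : py n j p = p.2.2.2.2 j := rfl
end coords

/-- auxiliary coefficient -/
noncomputable def AA (n m : ℕ) (c ε : ℝ) (p : EE n) : ℝ :=
  c * (ph n p * pw n p ^ m) + ε * (pw n p * px n 0 p)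

/-- The explicit `b^m`-contact form on `S^1 × S^(2n+2)`. -/
noncomputable def DD (n m : ℕ) (c ε : ℝ) : BmForm (EE n) (ℝ × ℝ) where
  F := fun p => (pu n p ^ 2 + pw n p ^ 2 - 1,
    ph n p ^ 2 + ∑ j, (px n j p ^ 2 + py n j p ^ 2) - 1)
  z := fun p => pw n p
  f := fun p => c * (ph n p * pu n p)
  β := fun p => (AA n m c ε p * pu n p) • pw n - (AA n m c ε p * pw n p) • pu n +
    ∑ j, (px n j p • py n j - py n j p • px n j)

section deriv
variable (n m : ℕ) (c ε : ℝ)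

lemma hasF (p : EE n) : HasFDerivAt (DD n m c ε).F
    (((2 * pu n p) • pu n + (2 * pw n p) • pw n).prod
      ((2 * ph n p) • ph n + ∑ j, ((2 * px n j p) • px n j + (2 * py n j p) • py n j))) p := by
  have sq : ∀ L : EE n →L[ℝ] ℝ, HasFDerivAt (fun p => L p ^ 2) ((2 * L p) • L) p := by
    intro L
    have := (L.hasFDerivAt (x := p)).mul (L.hasFDerivAt (x := p))
    have e : (fun p => L p ^ 2) = (fun p => L p) * (fun p => L p) := by
      funext q; simp [pow_two]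
    rw [e]
    refine this.congr_fderiv ?_
    ext v
    all_goals (simp; ring)
  have h1 : HasFDerivAt (fun p : EE n => pu n p ^ 2 + pw n p ^ 2 - 1)
      ((2 * pu n p) • pu n + (2 * pw n p) • pw n) p :=
    ((sq (pu n)).add (sq (pw n))).sub_const 1
  have h2 : HasFDerivAt (fun p : EE n => ∑ j, (px n j p ^ 2 + py n j p ^ 2))
      (∑ j, ((2 * px n j p) • px n j + (2 * py n j p) • py n j)) p :=
    HasFDerivAt.fun_sum (fun j _ => (sq (px n j)).add (sq (py n j)))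
  exact h1.prodMk (((sq (ph n)).add h2).sub_const 1)

lemma fderivF (p v : EE n) : fderiv ℝ (DD n m c ε).F p v =
    (2 * (p.1 * v.1 + p.2.1 * v.2.1), 2 * (p.2.2.1 * v.2.2.1 +
      ∑ j, (p.2.2.2.1 j * v.2.2.2.1 j + p.2.2.2.2 j * v.2.2.2.2 j))) := by
  rw [(hasF n m c ε p).fderiv]
  simp only [ContinuousLinearMap.prod_apply, add_apply,
    smul_apply, smul_eq_mul, sum_apply,
    pu_apply, pw_apply, ph_apply, px_apply, py_apply]
  refine Prod.ext ?_ ?_
  · ring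
  · simp only [mul_add, Finset.mul_sum, Finset.sum_add_distrib]
    ring_nf

lemma fderivz (p v : EE n) : fderiv ℝ (DD n m c ε).z p v = v.2.1 := by
  have : HasFDerivAt (DD n m c ε).z (pw n) p := (pw n).hasFDerivAt
  rw [this.fderiv]
  rfl

lemma fderivf (p v : EE n) : fderiv ℝ (DD n m c ε).f p v =
    c * (v.2.2.1 * p.1 + p.2.2.1 * v.1) := by
  have : HasFDerivAt (DD n m c ε).f (c • (ph n p • pu n + pu n p • ph n)) p :=
    ((ph n).hasFDerivAt.mul (pu n).hasFDerivAt).const_mul c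
  rw [this.fderiv]
  simp
  ring

/-- derivative of the auxiliary coefficient -/
noncomputable def dAA (p : EE n) : EE n →L[ℝ] ℝ :=
  c • (ph n p • ((m * pw n p ^ (m - 1)) • pw n) + (pw n p ^ m) • ph n) +
    ε • (pw n p • px n 0 + px n 0 p • pw n)

lemma hasAA (p : EE n) : HasFDerivAt (AA n m c ε) (dAA n m c ε p) p := by
  have h1 : HasFDerivAt (fun p => pw n p ^ m) ((m * pw n p ^ (m - 1)) • pw n) p :=
    ((pw n).hasFDerivAt.pow m).congr_fderiv (by
      ext v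
      all_goals simp)
  exact (((ph n).hasFDerivAt.mul h1).const_mul c).add
    (((pw n).hasFDerivAt.mul (px n 0).hasFDerivAt).const_mul ε)

lemma hasβ (p : EE n) : HasFDerivAt (DD n m c ε).β
    ((AA n m c ε p • pu n + pu n p • dAA n m c ε p).smulRight (pw n) -
      (AA n m c ε p • pw n + pw n p • dAA n m c ε p).smulRight (pu n) +
      ∑ j, ((px n j).smulRight (py n j) - (py n j).smulRight (px n j))) p := by
  have h1 : HasFDerivAt (fun p : EE n => (AA n m c ε p * pu n p) • pw n)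
      ((AA n m c ε p • pu n + pu n p • dAA n m c ε p).smulRight (pw n)) p :=
    ((hasAA n m c ε p).mul (pu n).hasFDerivAt).smul_const (pw n)
  have h2 : HasFDerivAt (fun p : EE n => (AA n m c ε p * pw n p) • pu n)
      ((AA n m c ε p • pw n + pw n p • dAA n m c ε p).smulRight (pu n)) p :=
    ((hasAA n m c ε p).mul (pw n).hasFDerivAt).smul_const (pu n)
  have h3 : HasFDerivAt (fun p : EE n => ∑ j, (px n j p • py n j - py n j p • px n j))
      (∑ j, ((px n j).smulRight (py n j) - (py n j).smulRight (px n j))) p := by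
    apply HasFDerivAt.fun_sum
    intro j _
    exact ((px n j).hasFDerivAt.smul_const (py n j)).sub ((py n j).hasFDerivAt.smul_const (px n j))
  exact (h1.sub h2).add h3

lemma dAA_apply (p v : EE n) : dAA n m c ε p v =
    c * (p.2.2.1 * (m * p.2.1 ^ (m - 1) * v.2.1) + p.2.1 ^ m * v.2.2.1) +
      ε * (p.2.1 * v.2.2.2.1 0 + p.2.2.2.1 0 * v.2.1) := by
  simp [dAA]
  ring

lemma fderivβ (p v r : EE n) : fderiv ℝ (DD n m c ε).β p v r =
    (AA n m c ε p * v.1 + p.1 * dAA n m c ε p v) * r.2.1 -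
      (AA n m c ε p * v.2.1 + p.2.1 * dAA n m c ε p v) * r.1 +
      ∑ j, (v.2.2.2.1 j * r.2.2.2.2 j - v.2.2.2.2 j * r.2.2.2.1 j) := by
  rw [(hasβ n m c ε p).fderiv]
  simp only [add_apply, sub_apply, ContinuousLinearMap.smulRight_apply, smul_apply, smul_eq_mul,
    sum_apply, pu_apply, pw_apply, px_apply, py_apply]

lemma β_apply (p v : EE n) : (DD n m c ε).β p v =
    AA n m c ε p * (p.1 * v.2.1 - p.2.1 * v.1) +
      ∑ j, (p.2.2.2.1 j * v.2.2.2.2 j - p.2.2.2.2 j * v.2.2.2.1 j) := by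
  simp only [DD, add_apply, sub_apply, smul_apply, smul_eq_mul,
    sum_apply, pu_apply, pw_apply, px_apply, py_apply]
  ring

/-- The element of the `b^m`-tangent space with components `τ` and `ξ`. -/
def mk (p : EE n) (τ ξh : ℝ) (ξx ξy : Fin (n + 1) → ℝ) : ℝ × EE n :=
  (τ * p.1, (-(p.2.1 * (τ * p.2.1 ^ m)), p.1 * (τ * p.2.1 ^ m), ξh, ξx, ξy))

/-- tangency to the sphere -/
def Tang (p : EE n) (ξh : ℝ) (ξx ξy : Fin (n + 1) → ℝ) : Prop :=
  p.2.2.1 * ξh + ∑ j, (p.2.2.2.1 j * ξx j + p.2.2.2.2 j * ξy j) = 0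

variable {n}

lemma memM {p : EE n} : p ∈ (DD n m c ε).M ↔ p.1 ^ 2 + p.2.1 ^ 2 = 1 ∧
    p.2.2.1 ^ 2 + ∑ j, (p.2.2.2.1 j ^ 2 + p.2.2.2.2 j ^ 2) = 1 := by
  have h1 : p ∈ (DD n m c ε).M ↔ (p.1 ^ 2 + p.2.1 ^ 2 - 1,
      p.2.2.1 ^ 2 + ∑ j, (p.2.2.2.1 j ^ 2 + p.2.2.2.2 j ^ 2) - 1) = (0, 0) := Iff.rfl
  rw [h1, Prod.ext_iff]
  constructor
  · rintro ⟨a, b⟩; exact ⟨by simpa [sub_eq_zero] using a, by simpa [sub_eq_zero] using b⟩
  · rintro ⟨a, b⟩; exact ⟨by simpa [sub_eq_zero] using a, by simpa [sub_eq_zero] using b⟩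

lemma mk_mem {p : EE n} (hp : p ∈ (DD n m c ε).M) (τ ξh : ℝ) (ξx ξy : Fin (n + 1) → ℝ)
    (ht : Tang n p ξh ξx ξy) : mk n m p τ ξh ξx ξy ∈ (DD n m c ε).bTangent m p := by
  rw [memM] at hp
  refine ⟨?_, ?_⟩
  · rw [fderivF]
    simp only [mk]
    refine Prod.ext ?_ ?_
    · simp only [Prod.fst_zero]
      ring
    · simp only [Prod.snd_zero]
      unfold Tang at ht
      rw [ht, mul_zero]
  · rw [fderivz]
    show p.1 * (τ * p.2.1 ^ m) = τ * p.1 * (p.2.1) ^ m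
    ring

lemma N_pos {p : EE n} (hp : p ∈ (DD n m c ε).M) : 0 < p.1 ^ 2 + p.2.1 ^ (2 * m) := by
  rw [memM] at hp
  have e : p.2.1 ^ (2 * m) = (p.2.1 ^ 2) ^ m := by rw [pow_mul]
  rw [e]
  rcases eq_or_ne p.1 0 with h | h
  · have h1 : p.2.1 ^ 2 = 1 := by have := hp.1; rw [h] at this; linarith
    rw [h1, h]; norm_num
  · have h1 : 0 < p.1 ^ 2 := by positivity
    have h2 : 0 ≤ (p.2.1 ^ 2) ^ m := by positivity
    linarith

lemma exists_mk {p : EE n} (hp : p ∈ (DD n m c ε).M) (q : ℝ × EE n)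
    (hq : q ∈ (DD n m c ε).bTangent m p) :
    ∃ τ : ℝ, q = mk n m p τ q.2.2.2.1 q.2.2.2.2.1 q.2.2.2.2.2 ∧
      Tang n p q.2.2.2.1 q.2.2.2.2.1 q.2.2.2.2.2 := by
  have hN := N_pos m c ε hp
  rw [memM] at hp
  obtain ⟨h1, h2⟩ := hq
  rw [fderivF] at h1
  rw [fderivz] at h2
  obtain ⟨a, v⟩ := q
  obtain ⟨vu, vw, vh, vx, vy⟩ := v
  obtain ⟨u, w, h, x, y⟩ := p
  have h1a := congrArg Prod.fst h1
  have h1b := congrArg Prod.snd h1
  simp only [Prod.fst_zero, Prod.snd_zero] at h1a h1b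
  have h2' : vw = a * w ^ m := h2
  simp only at hp hN h1a h1b ⊢
  have ht : Tang n (u, w, h, x, y) vh vx vy := by
    unfold Tang
    simp only
    linarith
  refine ⟨(a * u + (u * vw - w * vu) * w ^ m) / (u ^ 2 + w ^ (2 * m)), ?_, ht⟩
  set s := u * vw - w * vu with hs
  have hvu : vu = -(w * s) := by
    have : u * vu + w * vw = 0 := by linarith
    rw [hs]
    linear_combination u * this - vu * hp.1
  have hvw : vw = u * s := by
    have : u * vu + w * vw = 0 := by linarith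
    rw [hs]
    linear_combination w * this - vw * hp.1
  have hus : u * s = a * w ^ m := by rw [← hvw]; exact h2'
  have e2 : w ^ (2 * m) = w ^ m * w ^ m := by rw [two_mul, pow_add]
  have hτu : (a * u + s * w ^ m) / (u ^ 2 + w ^ (2 * m)) * u = a := by
    rw [div_mul_eq_mul_div, div_eq_iff hN.ne', e2]
    linear_combination w ^ m * hus
  have hτw : (a * u + s * w ^ m) / (u ^ 2 + w ^ (2 * m)) * w ^ m = s := by
    rw [div_mul_eq_mul_div, div_eq_iff hN.ne', e2]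
    linear_combination (-u) * hus
  unfold mk
  simp only [hτu, hτw]
  rw [← hvu, ← hvw]

lemma α_mk {p : EE n} (hp : p ∈ (DD n m c ε).M) (τ ξh : ℝ) (ξx ξy : Fin (n + 1) → ℝ) :
    (DD n m c ε).α p (mk n m p τ ξh ξx ξy) =
      τ * (c * p.2.2.1 * (p.1 ^ 2 + p.2.1 ^ (2 * m)) + ε * p.2.1 ^ (m + 1) * p.2.2.2.1 0) +
        ∑ j, (p.2.2.2.1 j * ξy j - p.2.2.2.2 j * ξx j) := by
  rw [memM] at hp
  unfold BmForm.α
  rw [β_apply]
  have e2 : p.2.1 ^ (2 * m) = p.2.1 ^ m * p.2.1 ^ m := by rw [two_mul, pow_add]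
  have e3 : (DD n m c ε).f p = c * (p.2.2.1 * p.1) := rfl
  have e4 : AA n m c ε p = c * (p.2.2.1 * p.2.1 ^ m) + ε * (p.2.1 * p.2.2.2.1 0) := rfl
  rw [e3, e4, e2]
  simp only [mk]
  linear_combination ((c * (p.2.2.1 * p.2.1 ^ m) + ε * (p.2.1 * p.2.2.2.1 0)) * τ * p.2.1 ^ m) * hp.1

lemma dα_mk {p : EE n} (hp : p ∈ (DD n m c ε).M) (τ ξh : ℝ) (ξx ξy : Fin (n + 1) → ℝ)
    (τ' ξh' : ℝ) (ξx' ξy' : Fin (n + 1) → ℝ) :
    (DD n m c ε).dα p (mk n m p τ ξh ξx ξy) (mk n m p τ' ξh' ξx' ξy') =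
      (c * (p.1 ^ 2 + p.2.1 ^ (2 * m)) * ξh + ε * p.2.1 ^ (m + 1) * ξx 0) * τ' -
      (c * (p.1 ^ 2 + p.2.1 ^ (2 * m)) * ξh' + ε * p.2.1 ^ (m + 1) * ξx' 0) * τ +
        2 * ∑ j, (ξx j * ξy' j - ξy j * ξx' j) := by
  rw [memM] at hp
  unfold BmForm.dα
  rw [fderivβ, fderivβ, fderivf, fderivf]
  simp only [dAA_apply]
  have e2 : p.2.1 ^ (2 * m) = p.2.1 ^ m * p.2.1 ^ m := by rw [two_mul, pow_add]
  have e4 : AA n m c ε p = c * (p.2.2.1 * p.2.1 ^ m) + ε * (p.2.1 * p.2.2.2.1 0) := rfl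
  rw [e4, e2]
  simp only [mk]
  have e5 : 2 * ∑ j, (ξx j * ξy' j - ξy j * ξx' j) =
      ∑ j, (ξx j * ξy' j - ξy j * ξx' j) - ∑ j, (ξx' j * ξy j - ξy' j * ξx j) := by
    rw [← Finset.sum_sub_distrib, Finset.mul_sum]
    apply Finset.sum_congr rfl
    intro j _
    ring
  rw [e5]
  generalize (m * p.2.1 ^ (m - 1) : ℝ) = X
  generalize ∑ j, (ξx j * ξy' j - ξy j * ξx' j) = S1
  generalize ∑ j, (ξx' j * ξy j - ξy' j * ξx j) = S2
  linear_combination ((c * p.2.1 ^ m * ξh + ε * p.2.1 * ξx 0) * τ' * p.2.1 ^ m -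
    (c * p.2.1 ^ m * ξh' + ε * p.2.1 * ξx' 0) * τ * p.2.1 ^ m) * hp.1

/-- the positive function which normalises the Reeb field -/
noncomputable def nrm (p : EE n) : ℝ :=
  c * (p.1 ^ 2 + p.2.1 ^ (2 * m)) * (1 + p.2.2.1 ^ 2) +
    ε * p.2.1 ^ (m + 1) * (p.2.2.1 * p.2.2.2.1 0)

theorem contact_aux (hc : 0 < c) {p : EE n} (hp : p ∈ (DD n m c ε).M)
    (hA : 0 < nrm m c ε p) (q : ℝ × EE n) (hq : q ∈ (DD n m c ε).bTangent m p)
    (hα : (DD n m c ε).α p q = 0)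
    (hdα : ∀ r ∈ (DD n m c ε).bTangent m p, (DD n m c ε).dα p q r = 0) : q = 0 := by
  obtain ⟨τ, hqτ, ht⟩ := exists_mk m c ε hp q hq
  have hN := N_pos m c ε hp
  have hpM := (memM m c ε).mp hp
  set ξh := q.2.2.2.1
  set ξx := q.2.2.2.2.1
  set ξy := q.2.2.2.2.2
  rw [hqτ, α_mk m c ε hp] at hα
  have hd : ∀ (τ' ξh' : ℝ) (ξx' ξy' : Fin (n + 1) → ℝ), Tang n p ξh' ξx' ξy' →
      (c * (p.1 ^ 2 + p.2.1 ^ (2 * m)) * ξh + ε * p.2.1 ^ (m + 1) * ξx 0) * τ' -
      (c * (p.1 ^ 2 + p.2.1 ^ (2 * m)) * ξh' + ε * p.2.1 ^ (m + 1) * ξx' 0) * τ +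
        2 * ∑ j, (ξx j * ξy' j - ξy j * ξx' j) = 0 := by
    intro τ' ξh' ξx' ξy' htt
    have := hdα _ (mk_mem m c ε hp τ' ξh' ξx' ξy' htt)
    rw [hqτ, dα_mk m c ε hp] at this
    exact this
  set N := p.1 ^ 2 + p.2.1 ^ (2 * m) with hNdef
  set h := p.2.2.1
  set x := p.2.2.2.1
  set y := p.2.2.2.2
  set W := ε * p.2.1 ^ (m + 1)
  -- first test vector
  have h1 : c * N * ξh + W * ξx 0 = 0 := by
    have := hd 1 0 0 0 (by simp [Tang])
    simpa using this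
  set μ := -(c * N * h + W * x 0) * τ + 2 * ∑ j, (ξx j * y j - ξy j * x j) with hμ
  have h2 : ∀ (ηh : ℝ) (ηx ηy : Fin (n + 1) → ℝ),
      -(c * N * ηh + W * ηx 0) * τ + 2 * ∑ j, (ξx j * ηy j - ξy j * ηx j) =
        (h * ηh + ∑ j, (x j * ηx j + y j * ηy j)) * μ := by
    intro ηh ηx ηy
    set k := h * ηh + ∑ j, (x j * ηx j + y j * ηy j) with hk
    have htt : Tang n p (ηh - k * h) (fun j => ηx j - k * x j) (fun j => ηy j - k * y j) := by
      unfold Tang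
      have e : ∑ j, (x j * (ηx j - k * x j) + y j * (ηy j - k * y j)) =
          ∑ j, (x j * ηx j + y j * ηy j) - k * ∑ j, (x j ^ 2 + y j ^ 2) := by
        rw [Finset.mul_sum, ← Finset.sum_sub_distrib]
        apply Finset.sum_congr rfl
        intro j _
        ring
      show h * (ηh - k * h) + ∑ j, (x j * (ηx j - k * x j) + y j * (ηy j - k * y j)) = 0
      rw [e]
      linear_combination (-k) * hpM.2 - hk
    have := hd 0 _ _ _ htt
    have e : ∑ j, (ξx j * (ηy j - k * y j) - ξy j * (ηx j - k * x j)) =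
        ∑ j, (ξx j * ηy j - ξy j * ηx j) - k * ∑ j, (ξx j * y j - ξy j * x j) := by
      rw [Finset.mul_sum, ← Finset.sum_sub_distrib]
      apply Finset.sum_congr rfl
      intro j _
      ring
    rw [e] at this
    rw [hμ]
    linear_combination this
  have h3 : μ = (c * N * h + W * x 0) * τ := by
    have e : ∑ j, (ξx j * y j - ξy j * x j) = - ∑ j, (x j * ξy j - y j * ξx j) := by
      rw [← Finset.sum_neg_distrib]
      apply Finset.sum_congr rfl
      intro j _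
      ring
    rw [hμ, e]
    linear_combination (-2) * hα
  have h4 : -(c * N) * τ = h * μ := by
    have := h2 1 0 0
    simpa using this
  have hτ : τ = 0 := by
    have h5 : τ * nrm m c ε p = 0 := by
      unfold nrm
      rw [h3] at h4
      linear_combination (-1) * h4
    rcases mul_eq_zero.mp h5 with h6 | h6
    · exact h6
    · exact absurd h6 hA.ne'
  have hμ0 : μ = 0 := by rw [h3, hτ, mul_zero]
  have hξx : ξx = 0 := by
    funext i
    have := h2 0 0 (Pi.single i 1)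
    rw [hμ0, hτ] at this
    simp only [mul_zero, Pi.zero_apply, sub_zero, Pi.single_apply, mul_ite, mul_one] at this
    simpa using this
  have hξy : ξy = 0 := by
    funext i
    have := h2 0 (Pi.single i 1) 0
    rw [hμ0, hτ] at this
    simp only [mul_zero, Pi.zero_apply, Pi.single_apply, mul_ite, mul_one] at this
    simpa using this
  have hξh : ξh = 0 := by
    rw [hξx] at h1
    simp only [Pi.zero_apply, mul_zero, add_zero] at h1
    have hcN : c * N ≠ 0 := (mul_pos hc hN).ne'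
    exact (mul_eq_zero.mp h1).resolve_left hcN
  rw [hqτ, hτ, hξh, hξx, hξy]
  simp only [mk, zero_mul, mul_zero, neg_zero]
  rfl

/-- A generator of the characteristic direction. -/
noncomputable def gen (p : EE n) : ℝ × EE n :=
  mk n m p (2 * p.2.2.1) (ε * p.2.1 ^ (m + 1) * p.2.2.2.2 0)
    (fun j => -(c * (p.1 ^ 2 + p.2.1 ^ (2 * m)) * p.2.2.2.2 j))
    (fun j => c * (p.1 ^ 2 + p.2.1 ^ (2 * m)) * p.2.2.2.1 j -
      if j = 0 then ε * p.2.1 ^ (m + 1) * p.2.2.1 else 0)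

lemma gen_mem {p : EE n} (hp : p ∈ (DD n m c ε).M) :
    gen m c ε p ∈ (DD n m c ε).bTangent m p := by
  apply mk_mem m c ε hp
  unfold Tang
  have e : ∀ j : Fin (n + 1), p.2.2.2.1 j * -(c * (p.1 ^ 2 + p.2.1 ^ (2 * m)) * p.2.2.2.2 j) +
      p.2.2.2.2 j * (c * (p.1 ^ 2 + p.2.1 ^ (2 * m)) * p.2.2.2.1 j -
        if j = 0 then ε * p.2.1 ^ (m + 1) * p.2.2.1 else 0) =
      if j = 0 then -(ε * p.2.1 ^ (m + 1) * p.2.2.1 * p.2.2.2.2 0) else 0 := by
    intro j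
    by_cases hj : j = 0
    · subst hj; simp only [if_true]; ring
    · simp only [if_neg hj]; ring
  simp only [e]
  simp
  ring

lemma gen_α {p : EE n} (hp : p ∈ (DD n m c ε).M) :
    (DD n m c ε).α p (gen m c ε p) = nrm m c ε p := by
  have hpM := (memM m c ε).mp hp
  unfold gen nrm
  rw [α_mk m c ε hp]
  have e : ∀ j : Fin (n + 1), p.2.2.2.1 j * (c * (p.1 ^ 2 + p.2.1 ^ (2 * m)) * p.2.2.2.1 j -
        if j = 0 then ε * p.2.1 ^ (m + 1) * p.2.2.1 else 0) -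
      p.2.2.2.2 j * -(c * (p.1 ^ 2 + p.2.1 ^ (2 * m)) * p.2.2.2.2 j) =
      c * (p.1 ^ 2 + p.2.1 ^ (2 * m)) * (p.2.2.2.1 j ^ 2 + p.2.2.2.2 j ^ 2) +
      if j = 0 then -(ε * p.2.1 ^ (m + 1) * p.2.2.1 * p.2.2.2.1 0) else 0 := by
    intro j
    by_cases hj : j = 0
    · subst hj; simp only [if_true]; ring
    · simp only [if_neg hj]; ring
  simp only [e]
  rw [Finset.sum_add_distrib, ← Finset.mul_sum]
  simp only [Finset.sum_ite_eq', Finset.mem_univ, if_true]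
  linear_combination (c * (p.1 ^ 2 + p.2.1 ^ (2 * m))) * hpM.2

lemma gen_dα {p : EE n} (hp : p ∈ (DD n m c ε).M) (r : ℝ × EE n)
    (hr : r ∈ (DD n m c ε).bTangent m p) :
    (DD n m c ε).dα p (gen m c ε p) r = 0 := by
  have hpM := (memM m c ε).mp hp
  obtain ⟨τ', hrτ, ht⟩ := exists_mk m c ε hp r hr
  rw [hrτ]
  unfold gen
  rw [dα_mk m c ε hp]
  set ξh := r.2.2.2.1
  set ξx := r.2.2.2.2.1
  set ξy := r.2.2.2.2.2
  unfold Tang at ht
  have e : ∀ j : Fin (n + 1), -(c * (p.1 ^ 2 + p.2.1 ^ (2 * m)) * p.2.2.2.2 j) * ξy j -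
      (c * (p.1 ^ 2 + p.2.1 ^ (2 * m)) * p.2.2.2.1 j -
        if j = 0 then ε * p.2.1 ^ (m + 1) * p.2.2.1 else 0) * ξx j =
      -(c * (p.1 ^ 2 + p.2.1 ^ (2 * m))) * (p.2.2.2.1 j * ξx j + p.2.2.2.2 j * ξy j) +
      if j = 0 then ε * p.2.1 ^ (m + 1) * p.2.2.1 * ξx 0 else 0 := by
    intro j
    by_cases hj : j = 0
    · subst hj; simp only [if_true]; ring
    · simp only [if_neg hj]; ring
  simp only [e]
  rw [Finset.sum_add_distrib, ← Finset.mul_sum]
  simp only [Finset.sum_ite_eq', Finset.mem_univ, if_true]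
  linear_combination (-2 * (c * (p.1 ^ 2 + p.2.1 ^ (2 * m)))) * ht

end deriv

end Pool.Agent.H62.Bm
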