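import Pool.Agent.H62.BmManifold
import Pool.Agent.H62.BmAnalysis

set_option autoImplicit false

open scoped ContDiff Topology
open Filter

namespace Pool.Agent.H62.Bm

section
variable {n : ℕ} (m : ℕ) (c ε : ℝ)

lemma bT_comb {p : EE n} {q r : ℝ × EE n} (hq : q ∈ (DD n m c ε).bTangent m p)
    (hr : r ∈ (DD n m c ε).bTangent m p) (t : ℝ) :
    q - t • r ∈ (DD n m c ε).bTangent m p := by
  obtain ⟨h1, h2⟩ := hq
  obtain ⟨h3, h4⟩ := hr
  refine ⟨?_, ?_⟩
  · rw [Prod.snd_sub, Prod.smul_snd, map_sub, map_smul, h1, h3, smul_zero, sub_zero]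
  · rw [Prod.snd_sub, Prod.smul_snd, map_sub, map_smul, h2, h4, Prod.fst_sub, Prod.smul_fst,
      smul_eq_mul, smul_eq_mul]
    ring

lemma α_comb (p : EE n) (q r : ℝ × EE n) (t : ℝ) :
    (DD n m c ε).α p (q - t • r) = (DD n m c ε).α p q - t * (DD n m c ε).α p r := by
  unfold BmForm.α
  rw [Prod.snd_sub, Prod.smul_snd, map_sub, map_smul, Prod.fst_sub, Prod.smul_fst,
    smul_eq_mul, smul_eq_mul]
  ring

lemma dα_comb (p : EE n) (q r s : ℝ × EE n) (t : ℝ) :
    (DD n m c ε).dα p (q - t • r) s = (DD n m c ε).dα p q s - t * (DD n m c ε).dα p r s := by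
  unfold BmForm.dα
  rw [Prod.snd_sub, Prod.smul_snd, map_sub, map_smul, Prod.fst_sub, Prod.smul_fst,
    smul_eq_mul, smul_eq_mul, map_sub, map_smul, map_sub, map_smul]
  simp only [sub_apply, smul_apply, smul_eq_mul]
  ring

lemma nrm_pos (hc : c = (1 / 2) ^ (m + 1)) (hε : ε = c ^ 2) {p : EE n}
    (hp : p ∈ (DD n m c ε).M) : 0 < nrm m c ε p := by
  rw [memM] at hp
  have hcpos : 0 < c := by rw [hc]; positivity
  have hsum : 0 ≤ ∑ j, (p.2.2.2.1 j ^ 2 + p.2.2.2.2 j ^ 2) :=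
    Finset.sum_nonneg (fun j _ => by positivity)
  have hj : p.2.2.2.1 0 ^ 2 + p.2.2.2.2 0 ^ 2 ≤
      ∑ j, (p.2.2.2.1 j ^ 2 + p.2.2.2.2 j ^ 2) :=
    Finset.single_le_sum (f := fun j => p.2.2.2.1 j ^ 2 + p.2.2.2.2 j ^ 2)
      (fun j _ => by positivity) (Finset.mem_univ 0)
  have hab : ∀ r : ℝ, r ^ 2 ≤ 1 → |r| ≤ 1 := by
    intro r hr
    rw [abs_le_one_iff_mul_self_le_one]
    nlinarith
  have hw : |p.2.1| ≤ 1 := hab _ (by nlinarith [sq_nonneg p.1])
  have hh : |p.2.2.1| ≤ 1 := hab _ (by nlinarith)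
  have hx : |p.2.2.2.1 0| ≤ 1 := hab _ (by nlinarith [sq_nonneg p.2.2.1, sq_nonneg (p.2.2.2.2 0)])
  have hN : (1 / 2 : ℝ) ^ m ≤ p.1 ^ 2 + p.2.1 ^ (2 * m) := by
    have e : p.2.1 ^ (2 * m) = (p.2.1 ^ 2) ^ m := by rw [pow_mul]
    rw [e]
    rcases le_total (1 / 2) (p.2.1 ^ 2) with h | h
    · have h1 : (1 / 2 : ℝ) ^ m ≤ (p.2.1 ^ 2) ^ m := pow_le_pow_left₀ (by norm_num) h m
      nlinarith [sq_nonneg p.1]
    · rcases Nat.eq_zero_or_pos m with h0 | h0
      · subst h0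
        simp only [pow_zero]
        nlinarith [sq_nonneg p.1]
      · have h1 : (1 / 2 : ℝ) ^ m ≤ 1 / 2 := by
          calc (1 / 2 : ℝ) ^ m ≤ (1 / 2) ^ 1 :=
                pow_le_pow_of_le_one (by norm_num) (by norm_num) h0
            _ = 1 / 2 := pow_one _
        have h2 : 0 ≤ (p.2.1 ^ 2) ^ m := by positivity
        linarith [hp.1]
  have hcc : c * (1 / 2) ^ m = 2 * c ^ 2 := by
    rw [hc]; ring
  have h1 : 2 * c ^ 2 ≤ c * (p.1 ^ 2 + p.2.1 ^ (2 * m)) := by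
    rw [← hcc]
    exact mul_le_mul_of_nonneg_left hN hcpos.le
  have h2 : |ε * p.2.1 ^ (m + 1) * (p.2.2.1 * p.2.2.2.1 0)| ≤ ε := by
    rw [abs_mul, abs_mul, abs_mul, abs_pow]
    have hεpos : 0 < ε := by rw [hε]; positivity
    rw [abs_of_pos hεpos]
    have h3 : |p.2.1| ^ (m + 1) ≤ 1 := pow_le_one₀ (abs_nonneg _) hw
    have h4 : |p.2.2.1| * |p.2.2.2.1 0| ≤ 1 := by
      calc |p.2.2.1| * |p.2.2.2.1 0| ≤ 1 * 1 := mul_le_mul hh hx (abs_nonneg _) zero_le_one
        _ = 1 := one_mul 1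
    calc ε * |p.2.1| ^ (m + 1) * (|p.2.2.1| * |p.2.2.2.1 0|)
        ≤ (ε * 1) * 1 := by
          apply mul_le_mul _ h4 (by positivity) (by positivity)
          exact mul_le_mul_of_nonneg_left h3 hεpos.le
      _ = ε := by ring
  have h5 := (abs_le.mp h2).1
  unfold nrm
  have h6 : c * (p.1 ^ 2 + p.2.1 ^ (2 * m)) ≤
      c * (p.1 ^ 2 + p.2.1 ^ (2 * m)) * (1 + p.2.2.1 ^ 2) := by
    have : 0 < c * (p.1 ^ 2 + p.2.1 ^ (2 * m)) := lt_of_lt_of_le (by positivity) h1
    nlinarith [sq_nonneg p.2.2.1]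
  have h7 : 0 < c ^ 2 := by positivity
  linarith

theorem isContact (hc : c = (1 / 2) ^ (m + 1)) (hε : ε = c ^ 2) :
    (DD n m c ε).IsCompactBmContact (n + 1) m where
  smooth_F := smoothF m c ε
  smooth_z := smoothz m c ε
  smooth_f := smoothf m c ε
  smooth_β := smoothβ m c ε
  finite := inferInstance
  regular := F_regular m c ε
  dimension := dim_eq
  compact := M_compact m c ε
  connected := M_connected m c ε
  nonempty_Z := by
    refine ⟨(1, 0, 1, 0, 0), ?_, rfl⟩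
    have : ((1, 0, 1, 0, 0) : EE n) ∈ (DD n m c ε).M := by
      rw [memM]
      simp
    exact this
  regular_Z := by
    rintro p ⟨_, hp2⟩
    refine ⟨(0, 1, 0, 0, 0), ?_, ?_⟩
    · rw [fderivF]
      have hw : p.2.1 = 0 := hp2
      simp [hw]
    · rw [fderivz]
      exact one_ne_zero
  contact := by
    intro p hp q hq h1 h2
    have hcpos : 0 < c := by rw [hc]; positivity
    exact contact_aux m c ε hcpos hp (nrm_pos m c ε hc hε hp) q hq h1 h2

/-- The Reeb vector field. -/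
lemma reeb_eq (hc : c = (1 / 2) ^ (m + 1)) (hε : ε = c ^ 2) {p v : EE n}
    (hp : p ∈ (DD n m c ε).M) (hv : (DD n m c ε).IsReebVector m p v) :
    v = (nrm m c ε p)⁻¹ • (gen m c ε p).2 := by
  obtain ⟨a, ha, hα, hdα⟩ := hv
  have hcpos : 0 < c := by rw [hc]; positivity
  have hn := nrm_pos m c ε hc hε hp
  have hg := gen_mem m c ε hp
  have hd := bT_comb m c ε ha hg (nrm m c ε p)⁻¹
  have h0 : ((a, v) : ℝ × EE n) - (nrm m c ε p)⁻¹ • gen m c ε p = 0 := by
    apply contact_aux m c ε hcpos hp hn _ hd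
    · rw [α_comb, hα, gen_α m c ε hp, inv_mul_cancel₀ hn.ne', sub_self]
    · intro r hr
      rw [dα_comb, hdα r hr, gen_dα m c ε hp r hr, mul_zero, sub_zero]
  have := congrArg Prod.snd (sub_eq_zero.mp h0)
  exact this

/-- Existence and uniqueness of the Reeb vector field. -/
lemma reeb_existsUnique (hc : c = (1 / 2) ^ (m + 1)) (hε : ε = c ^ 2) {p : EE n}
    (hp : p ∈ (DD n m c ε).M) : ∃! v, (DD n m c ε).IsReebVector m p v := by
  have hn := nrm_pos m c ε hc hε hp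
  have hg := gen_mem m c ε hp
  refine ⟨(nrm m c ε p)⁻¹ • (gen m c ε p).2, ?_, fun v hv => reeb_eq m c ε hc hε hp hv⟩
  have hz : (0 : ℝ × EE n) ∈ (DD n m c ε).bTangent m p := by
    refine ⟨?_, ?_⟩
    · rw [Prod.snd_zero, map_zero]
    · rw [Prod.snd_zero, map_zero, Prod.fst_zero, zero_mul]
  have he : (((nrm m c ε p)⁻¹ * (gen m c ε p).1, (nrm m c ε p)⁻¹ • (gen m c ε p).2) :
      ℝ × EE n) = 0 - (-(nrm m c ε p)⁻¹) • gen m c ε p := by
    rw [zero_sub, neg_smul, neg_neg]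
    rfl
  have h0α : (DD n m c ε).α p 0 = 0 := by
    unfold BmForm.α
    rw [Prod.fst_zero, Prod.snd_zero, map_zero, mul_zero, add_zero]
  have h0dα : ∀ r, (DD n m c ε).dα p 0 r = 0 := by
    intro r
    unfold BmForm.dα
    rw [Prod.fst_zero, Prod.snd_zero, map_zero, map_zero, map_zero]
    simp
  refine ⟨(nrm m c ε p)⁻¹ * (gen m c ε p).1, ?_, ?_, ?_⟩
  · rw [he]
    exact bT_comb m c ε hz hg _
  · rw [he, α_comb, gen_α m c ε hp, h0α, zero_sub, neg_mul, neg_neg, inv_mul_cancel₀ hn.ne']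
  · intro r hr
    rw [he, dα_comb, gen_dα m c ε hp r hr, h0dα, mul_zero, sub_zero]

end

/-- If a function converges at infinity and so does its derivative, the latter tends to zero. -/
lemma deriv_limit_zero {g g' : ℝ → ℝ} (hg : ∀ t, HasDerivAt g (g' t) t) {a b : ℝ} {l : Filter ℝ}
    (hl : l = atTop ∨ l = atBot) (h1 : Tendsto g l (𝓝 a)) (h2 : Tendsto g' l (𝓝 b)) : b = 0 := by
  have hmv : ∀ t, ∃ s ∈ Set.Ioo t (t + 1), g' s = g (t + 1) - g t := by
    intro t
    have hc : ContinuousOn g (Set.Icc t (t + 1)) := fun s _ => (hg s).continuousAt.continuousWithinAt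
    obtain ⟨s, hs, hs'⟩ := exists_hasDerivAt_eq_slope g g' (show t < t + 1 by linarith) hc
      (fun s _ => hg s)
    refine ⟨s, hs, ?_⟩
    rw [hs']
    have : t + 1 - t = 1 := by ring
    rw [this, div_one]
  choose s hs hs' using hmv
  have hshift : Tendsto (fun t => t + 1) l l := by
    rcases hl with rfl | rfl
    · exact tendsto_atTop_add_const_right _ _ tendsto_id
    · exact tendsto_atBot_add_const_right _ _ tendsto_id
  have hsl : Tendsto s l l := by
    rcases hl with rfl | rfl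
    · exact tendsto_atTop_mono (fun t => (hs t).1.le) tendsto_id
    · exact tendsto_atBot_mono (fun t => (hs t).2.le) hshift
  have h3 : Tendsto (fun t => g (t + 1) - g t) l (𝓝 (a - a)) := (h1.comp hshift).sub h1
  have h4 : Tendsto (fun t => g' (s t)) l (𝓝 b) := h2.comp hsl
  have h5 : (fun t => g' (s t)) = fun t => g (t + 1) - g t := funext hs'
  rw [h5] at h4
  have hne : l.NeBot := by rcases hl with rfl | rfl <;> infer_instance
  have := tendsto_nhds_unique h4 h3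
  rw [this, sub_self]

theorem no_singular_orbit {n : ℕ} (m : ℕ) (hm : 1 ≤ m) (c ε : ℝ) (hc : c = (1 / 2) ^ (m + 1))
    (hε : ε = c ^ 2) (γ : ℝ → EE n) : ¬ (DD n m c ε).IsSingularPeriodicOrbit m γ := by
  rintro ⟨hMZ, hode, ⟨pt, hptZ, hpt⟩, ⟨pb, hpbZ, hpb⟩⟩
  have hcpos : 0 < c := by rw [hc]; positivity
  have hεpos : 0 < ε := by rw [hε]; positivity
  let lam : EE n → ℝ := fun p => (nrm m c ε p)⁻¹
  have hM : ∀ t, γ t ∈ (DD n m c ε).M := fun t => (hMZ t).1
  have hMt : pt ∈ (DD n m c ε).M := hptZ.1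
  have hMb : pb ∈ (DD n m c ε).M := hpbZ.1
  have hnpos : ∀ p ∈ (DD n m c ε).M, 0 < nrm m c ε p := fun p hp => nrm_pos m c ε hc hε hp
  have hder : ∀ t, HasDerivAt γ (lam (γ t) • (gen m c ε (γ t)).2) t := by
    intro t
    obtain ⟨v, hv, hγ⟩ := hode t
    rw [reeb_eq m c ε hc hε (hM t) hv] at hγ
    exact hγ
  have hγc : Continuous γ := continuous_iff_continuousAt.mpr fun t => (hder t).continuousAt
  have hnrmc : Continuous (nrm m c ε : EE n → ℝ) := by
    unfold nrm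
    fun_prop
  -- derivatives of the coordinates
  have hu : ∀ t, HasDerivAt (fun t => (γ t).1)
      (-(2 * lam (γ t) * (γ t).2.2.1 * (γ t).2.1 ^ (m + 1))) t := by
    intro t
    have := (pu n).hasFDerivAt.comp_hasDerivAt t (hder t)
    refine this.congr_deriv ?_
    simp only [pu_apply, Prod.smul_fst, smul_eq_mul, gen, mk]
    ring
  have hw : ∀ t, HasDerivAt (fun t => (γ t).2.1)
      (lam (γ t) * ((γ t).1 * (2 * (γ t).2.2.1 * (γ t).2.1 ^ m))) t := by
    intro t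
    have := (pw n).hasFDerivAt.comp_hasDerivAt t (hder t)
    refine this.congr_deriv ?_
    simp only [pw_apply, Prod.smul_fst, Prod.smul_snd, smul_eq_mul, gen, mk]
  have hh : ∀ t, HasDerivAt (fun t => (γ t).2.2.1)
      (lam (γ t) * ε * (γ t).2.1 ^ (m + 1) * (γ t).2.2.2.2 0) t := by
    intro t
    have := (ph n).hasFDerivAt.comp_hasDerivAt t (hder t)
    refine this.congr_deriv ?_
    simp only [ph_apply, Prod.smul_fst, Prod.smul_snd, smul_eq_mul, gen, mk]
    ring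
  have hx : ∀ j t, HasDerivAt (fun t => (γ t).2.2.2.1 j)
      (-(lam (γ t) * (c * ((γ t).1 ^ 2 + (γ t).2.1 ^ (2 * m)) * (γ t).2.2.2.2 j))) t := by
    intro j t
    have := (px n j).hasFDerivAt.comp_hasDerivAt t (hder t)
    refine this.congr_deriv ?_
    simp only [px_apply, Prod.smul_fst, Prod.smul_snd, Pi.smul_apply, smul_eq_mul, gen, mk]
    ring
  have hy : ∀ j t, HasDerivAt (fun t => (γ t).2.2.2.2 j)
      (lam (γ t) * (c * ((γ t).1 ^ 2 + (γ t).2.1 ^ (2 * m)) * (γ t).2.2.2.1 j -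
        if j = 0 then ε * (γ t).2.1 ^ (m + 1) * (γ t).2.2.1 else 0)) t := by
    intro j t
    have := (py n j).hasFDerivAt.comp_hasDerivAt t (hder t)
    refine this.congr_deriv ?_
    simp only [py_apply, Prod.smul_fst, Prod.smul_snd, Pi.smul_apply, smul_eq_mul, gen, mk]
  -- the limits are zeros of the Reeb field
  have hlim : ∀ (l : Filter ℝ) (p : EE n), (l = atTop ∨ l = atBot) →
      p ∈ (DD n m c ε).Z → Tendsto γ l (𝓝 p) →
      p.1 ^ 2 = 1 ∧ p.2.1 = 0 ∧ p.2.2.1 ^ 2 = 1 ∧ (∀ j, p.2.2.2.1 j = 0) ∧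
        (∀ j, p.2.2.2.2 j = 0) := by
    intro l p hl hpZ hγl
    have hpM : p ∈ (DD n m c ε).M := hpZ.1
    have hpM' := (memM m c ε).mp hpM
    have hw0 : p.2.1 = 0 := hpZ.2
    have hu1 : p.1 ^ 2 = 1 := by have := hpM'.1; rw [hw0] at this; linarith
    have hN : p.1 ^ 2 + p.2.1 ^ (2 * m) = 1 := by
      rw [hw0, hu1, zero_pow (by omega), add_zero]
    have hlamp : 0 < lam p := inv_pos.mpr (hnpos p hpM)
    have hcont : ∀ G : EE n → ℝ, Continuous G →
        Tendsto (fun t => lam (γ t) * G (γ t)) l (𝓝 (lam p * G p)) := by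
      intro G hG
      have h1 : Tendsto (fun t => nrm m c ε (γ t)) l (𝓝 (nrm m c ε p)) :=
        (hnrmc.tendsto p).comp hγl
      exact (h1.inv₀ (hnpos p hpM).ne').mul ((hG.tendsto p).comp hγl)
    have hy0 : ∀ j, p.2.2.2.2 j = 0 := by
      intro j
      have h1 : Tendsto (fun t => (γ t).2.2.2.1 j) l (𝓝 (p.2.2.2.1 j)) :=
        ((px n j).continuous.tendsto p).comp hγl
      have h2 := hcont (fun p => c * (p.1 ^ 2 + p.2.1 ^ (2 * m)) * p.2.2.2.2 j) (by fun_prop)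
      have h3 := deriv_limit_zero (hx j) hl h1 h2.neg
      simp only [hN, mul_one, neg_eq_zero, mul_eq_zero, hlamp.ne', hcpos.ne', false_or] at h3
      exact h3
    have hx0 : ∀ j, p.2.2.2.1 j = 0 := by
      intro j
      have h1 : Tendsto (fun t => (γ t).2.2.2.2 j) l (𝓝 (p.2.2.2.2 j)) :=
        ((py n j).continuous.tendsto p).comp hγl
      have h2 := hcont (fun p => c * (p.1 ^ 2 + p.2.1 ^ (2 * m)) * p.2.2.2.1 j -
        if j = 0 then ε * p.2.1 ^ (m + 1) * p.2.2.1 else 0) (by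
          by_cases hj : j = 0
          · simp only [if_pos hj]; fun_prop
          · simp only [if_neg hj]; fun_prop)
      have h3 := deriv_limit_zero (hy j) hl h1 h2
      have hw1 : p.2.1 ^ (m + 1) = 0 := by rw [hw0]; exact zero_pow (by omega)
      simp only [hN, hw1, mul_one, mul_zero, zero_mul, ite_self, sub_zero, mul_eq_zero,
        hlamp.ne', hcpos.ne', false_or] at h3
      exact h3
    refine ⟨hu1, hw0, ?_, hx0, hy0⟩
    have := hpM'.2
    simp only [hx0, hy0] at this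
    simpa using this
  obtain ⟨t1, t2, t3, t4, t5⟩ := hlim atTop pt (Or.inl rfl) hptZ hpt
  obtain ⟨b1, b2, b3, b4, b5⟩ := hlim atBot pb (Or.inr rfl) hpbZ hpb
  have hwne : ∀ t, (γ t).2.1 ≠ 0 := by
    intro t h0
    exact (hMZ t).2 ⟨(hMZ t).1, h0⟩
  have hcomp : ∀ (L : EE n →L[ℝ] ℝ) (l : Filter ℝ) (p : EE n), Tendsto γ l (𝓝 p) →
      Tendsto (fun t => L (γ t)) l (𝓝 (L p)) := fun L l p h => (L.continuous.tendsto p).comp h
  have hε16 : ε ≤ 1 / 16 := by
    have h1 : c ≤ 1 / 4 := by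
      rw [hc]
      calc (1 / 2 : ℝ) ^ (m + 1) ≤ (1 / 2) ^ 2 :=
            pow_le_pow_of_le_one (by norm_num) (by norm_num) (by omega)
        _ = 1 / 4 := by norm_num
    rw [hε]; nlinarith
  refine orbit_contradiction m hm c ε hc hεpos hε16 (fun t => (γ t).1) (fun t => (γ t).2.1)
    (fun t => (γ t).2.2.1) (fun t => (γ t).2.2.2.1 0) (fun t => (γ t).2.2.2.2 0)
    (fun t => lam (γ t)) (fun t => inv_pos.mpr (hnpos _ (hM t))) ?_ ?_ hwne ?_ ?_ hu hh
    (hx 0) ?_ pt.1 pb.1 t1 b1 (hcomp (pu n) _ _ hpt) (hcomp (pu n) _ _ hpb) ?_ ?_ ?_ ?_ ?_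
  · exact (hnrmc.comp hγc).inv₀ (fun t => (hnpos _ (hM t)).ne')
  · intro t
    exact ((memM m c ε).mp (hM t)).1
  · exact (pw n).continuous.comp hγc
  · intro t
    have h1 := ((memM m c ε).mp (hM t)).2
    have hj : (γ t).2.2.2.1 0 ^ 2 + (γ t).2.2.2.2 0 ^ 2 ≤
        ∑ j, ((γ t).2.2.2.1 j ^ 2 + (γ t).2.2.2.2 j ^ 2) :=
      Finset.single_le_sum (f := fun j => (γ t).2.2.2.1 j ^ 2 + (γ t).2.2.2.2 j ^ 2)
        (fun j _ => by positivity) (Finset.mem_univ 0)
    nlinarith [sq_nonneg (γ t).2.2.1, sq_nonneg ((γ t).2.2.2.1 0)]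
  · intro t
    have := hy 0 t
    simp only [if_true] at this
    exact this
  · have := hcomp (px n 0) _ _ hpt
    rw [px_apply, t4] at this
    exact this
  · have := hcomp (px n 0) _ _ hpb
    rw [px_apply, b4] at this
    exact this
  · have := hcomp (py n 0) _ _ hpt
    rw [py_apply, t5] at this
    exact this
  · have := hcomp (py n 0) _ _ hpb
    rw [py_apply, b5] at this
    exact this
  · have := (hcomp (ph n) _ _ hpb).pow 2
    rw [ph_apply, b3] at this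
    exact this

end Pool.Agent.H62.Bm
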