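import Pool.Agent.H62.BmExample
import Mathlib.Analysis.Normed.Module.Connected
import Mathlib.Analysis.Normed.Module.FiniteDimension
import Mathlib.Analysis.SpecialFunctions.Trigonometric.Basic
import Mathlib.Analysis.SpecialFunctions.Complex.Circle
import Mathlib.Analysis.SpecialFunctions.Complex.Arg
import Mathlib.Analysis.SpecialFunctions.Sqrt

set_option autoImplicit false

open scoped ContDiff Topology

namespace Pool.Agent.H62.Bm

section
variable {n : ℕ} (m : ℕ) (c ε : ℝ)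

lemma smoothF : ContDiff ℝ ∞ (DD n m c ε).F := by
  have hu := (pu n).contDiff (n := ∞)
  have hw := (pw n).contDiff (n := ∞)
  have hh := (ph n).contDiff (n := ∞)
  have hx := fun j => (px n j).contDiff (n := ∞)
  have hy := fun j => (py n j).contDiff (n := ∞)
  apply ContDiff.prodMk
  · exact ((hu.pow 2).add (hw.pow 2)).sub contDiff_const
  · exact ((hh.pow 2).add (ContDiff.sum (fun j _ => ((hx j).pow 2).add ((hy j).pow 2)))).sub
      contDiff_const

lemma smoothz : ContDiff ℝ ∞ (DD n m c ε).z := (pw n).contDiff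

lemma smoothf : ContDiff ℝ ∞ (DD n m c ε).f :=
  contDiff_const.mul ((ph n).contDiff.mul (pu n).contDiff)

lemma smoothβ : ContDiff ℝ ∞ (DD n m c ε).β := by
  have hu := (pu n).contDiff (n := ∞)
  have hw := (pw n).contDiff (n := ∞)
  have hh := (ph n).contDiff (n := ∞)
  have hx := fun j => (px n j).contDiff (n := ∞)
  have hy := fun j => (py n j).contDiff (n := ∞)
  have hA : ContDiff ℝ ∞ (AA n m c ε) :=
    (contDiff_const.mul (hh.mul (hw.pow m))).add (contDiff_const.mul (hw.mul (hx 0)))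
  apply ContDiff.add
  · apply ContDiff.sub
    · exact (hA.mul hu).smul contDiff_const
    · exact (hA.mul hw).smul contDiff_const
  · apply ContDiff.sum
    intro j _
    exact ((hx j).smul contDiff_const).sub ((hy j).smul contDiff_const)

lemma M_closed : IsClosed (DD n m c ε).M :=
  isClosed_eq (smoothF m c ε).continuous continuous_const

lemma M_compact : IsCompact (DD n m c ε).M := by
  apply Metric.isCompact_of_isClosed_isBounded (M_closed m c ε)
  apply (Metric.isBounded_closedBall (x := (0 : EE n)) (r := 1)).subset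
  intro p hp
  rw [memM] at hp
  have hsum : 0 ≤ ∑ j, (p.2.2.2.1 j ^ 2 + p.2.2.2.2 j ^ 2) :=
    Finset.sum_nonneg (fun j _ => by positivity)
  have hj : ∀ j, p.2.2.2.1 j ^ 2 + p.2.2.2.2 j ^ 2 ≤
      ∑ j, (p.2.2.2.1 j ^ 2 + p.2.2.2.2 j ^ 2) := fun j =>
    Finset.single_le_sum (f := fun j => p.2.2.2.1 j ^ 2 + p.2.2.2.2 j ^ 2)
      (fun j _ => by positivity) (Finset.mem_univ j)
  have hab : ∀ r : ℝ, r ^ 2 ≤ 1 → ‖r‖ ≤ 1 := by
    intro r hr
    rw [Real.norm_eq_abs, abs_le_one_iff_mul_self_le_one]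
    nlinarith
  rw [mem_closedBall_zero_iff]
  simp only [Prod.norm_def, sup_le_iff]
  refine ⟨hab _ (by nlinarith [sq_nonneg p.2.1]), hab _ (by nlinarith [sq_nonneg p.1]),
    hab _ (by nlinarith [sq_nonneg p.1]), ?_, ?_⟩
  · rw [pi_norm_le_iff_of_nonneg zero_le_one]
    intro j
    apply hab
    nlinarith [hj j, sq_nonneg (p.2.2.2.2 j), sq_nonneg p.2.2.1]
  · rw [pi_norm_le_iff_of_nonneg zero_le_one]
    intro j
    apply hab
    nlinarith [hj j, sq_nonneg (p.2.2.2.1 j), sq_nonneg p.2.2.1]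

lemma F_regular (p : EE n) (hp : p ∈ (DD n m c ε).M) :
    Function.Surjective (fderiv ℝ (DD n m c ε).F p) := by
  rw [memM] at hp
  rintro ⟨a, b⟩
  refine ⟨(a / 2 * p.1, a / 2 * p.2.1, b / 2 * p.2.2.1, fun j => b / 2 * p.2.2.2.1 j,
    fun j => b / 2 * p.2.2.2.2 j), ?_⟩
  rw [fderivF]
  refine Prod.ext ?_ ?_
  · simp only
    linear_combination a * hp.1
  · simp only
    have e : ∑ j, (p.2.2.2.1 j * (b / 2 * p.2.2.2.1 j) + p.2.2.2.2 j * (b / 2 * p.2.2.2.2 j)) =
        b / 2 * ∑ j, (p.2.2.2.1 j ^ 2 + p.2.2.2.2 j ^ 2) := by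
      rw [Finset.mul_sum]
      apply Finset.sum_congr rfl
      intro j _
      ring
    rw [e]
    linear_combination b * hp.2

lemma dim_eq : Module.finrank ℝ (EE n) = Module.finrank ℝ (ℝ × ℝ) + (2 * (n + 1) + 1) := by
  simp [EE]
  ring

/-- the round factor -/
lemma sphere_connected : IsConnected {q : ℝ × (Fin (n + 1) → ℝ) × (Fin (n + 1) → ℝ) |
    q.1 ^ 2 + ∑ j, (q.2.1 j ^ 2 + q.2.2 j ^ 2) = 1} := by
  let N : ℝ × (Fin (n + 1) → ℝ) × (Fin (n + 1) → ℝ) → ℝ :=
    fun q => q.1 ^ 2 + ∑ j, (q.2.1 j ^ 2 + q.2.2 j ^ 2)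
  have hNc : Continuous N := by fun_prop
  have hN0 : ∀ q, 0 ≤ N q := by
    intro q
    have : 0 ≤ ∑ j, (q.2.1 j ^ 2 + q.2.2 j ^ 2) := Finset.sum_nonneg (fun j _ => by positivity)
    show 0 ≤ q.1 ^ 2 + ∑ j, (q.2.1 j ^ 2 + q.2.2 j ^ 2)
    positivity
  have hNpos : ∀ q, q ≠ 0 → 0 < N q := by
    intro q hq
    refine lt_of_le_of_ne (hN0 q) ?_
    intro h0
    apply hq
    have hs : 0 ≤ ∑ j, (q.2.1 j ^ 2 + q.2.2 j ^ 2) := Finset.sum_nonneg (fun j _ => by positivity)
    have h0' : q.1 ^ 2 + ∑ j, (q.2.1 j ^ 2 + q.2.2 j ^ 2) = 0 := h0.symm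
    have h1 : q.1 ^ 2 = 0 := by nlinarith [sq_nonneg q.1]
    have h2 : ∑ j, (q.2.1 j ^ 2 + q.2.2 j ^ 2) = 0 := by linarith
    rw [Finset.sum_eq_zero_iff_of_nonneg (fun j _ => by positivity)] at h2
    refine Prod.ext (pow_eq_zero_iff (two_ne_zero) |>.mp h1) (Prod.ext ?_ ?_)
    · funext j
      have := h2 j (Finset.mem_univ j)
      have h3 : q.2.1 j ^ 2 = 0 := by nlinarith [sq_nonneg (q.2.1 j), sq_nonneg (q.2.2 j)]
      exact pow_eq_zero_iff (two_ne_zero) |>.mp h3
    · funext j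
      have := h2 j (Finset.mem_univ j)
      have h3 : q.2.2 j ^ 2 = 0 := by nlinarith [sq_nonneg (q.2.1 j), sq_nonneg (q.2.2 j)]
      exact pow_eq_zero_iff (two_ne_zero) |>.mp h3
  have hconn : IsConnected ({0}ᶜ : Set (ℝ × (Fin (n + 1) → ℝ) × (Fin (n + 1) → ℝ))) := by
    apply isConnected_compl_singleton_of_one_lt_rank
    rw [← Module.finrank_eq_rank]
    have : Module.finrank ℝ (ℝ × (Fin (n + 1) → ℝ) × (Fin (n + 1) → ℝ)) = 2 * n + 3 := by
      simp
      ring
    rw [this]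
    have : 1 < 2 * n + 3 := by omega
    exact_mod_cast this
  have himg : {q : ℝ × (Fin (n + 1) → ℝ) × (Fin (n + 1) → ℝ) |
      q.1 ^ 2 + ∑ j, (q.2.1 j ^ 2 + q.2.2 j ^ 2) = 1} =
      (fun q => (Real.sqrt (N q))⁻¹ • q) '' ({0}ᶜ) := by
    have hscale : ∀ (t : ℝ) q, N (t • q) = t ^ 2 * N q := by
      intro t q
      simp only [N, Prod.smul_fst, Prod.smul_snd, smul_eq_mul, Pi.smul_apply]
      rw [mul_add, Finset.mul_sum]
      congr 1
      · ring
      · apply Finset.sum_congr rfl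
        intro j _
        ring
    ext q
    constructor
    · intro hq
      have hq' : N q = 1 := hq
      refine ⟨q, ?_, ?_⟩
      · intro h0
        have h0' : q = 0 := h0
        rw [h0'] at hq'
        simp [N] at hq'
      · simp [hq']
    · rintro ⟨r, hr, rfl⟩
      have hr' : 0 < N r := hNpos r hr
      show N ((Real.sqrt (N r))⁻¹ • r) = 1
      rw [hscale, inv_pow, Real.sq_sqrt hr'.le]
      exact inv_mul_cancel₀ hr'.ne'
  rw [himg]
  apply hconn.image
  have hinv : ContinuousOn (fun q => (Real.sqrt (N q))⁻¹)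
      ({0}ᶜ : Set (ℝ × (Fin (n + 1) → ℝ) × (Fin (n + 1) → ℝ))) := by
    apply ContinuousOn.inv₀
    · exact (Real.continuous_sqrt.comp hNc).continuousOn
    · intro q hq
      exact (Real.sqrt_pos.mpr (hNpos q hq)).ne'
  exact hinv.smul continuousOn_id

lemma M_connected : IsConnected (DD n m c ε).M := by
  have h1 : (DD n m c ε).M = (fun a : ℝ × (ℝ × (Fin (n + 1) → ℝ) × (Fin (n + 1) → ℝ)) =>
      ((Real.cos a.1, Real.sin a.1, a.2.1, a.2.2.1, a.2.2.2) : EE n)) ''
      (Set.univ ×ˢ {q | q.1 ^ 2 + ∑ j, (q.2.1 j ^ 2 + q.2.2 j ^ 2) = 1}) := by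
    ext p
    rw [memM]
    constructor
    · rintro ⟨h1, h2⟩
      have : ∃ t : ℝ, Real.cos t = p.1 ∧ Real.sin t = p.2.1 := by
        let z : ℂ := ⟨p.1, p.2.1⟩
        have hz : ‖z‖ = 1 := by
          rw [Complex.norm_def, Complex.normSq_apply]
          simp only [z]
          have : p.1 * p.1 + p.2.1 * p.2.1 = 1 := by nlinarith
          rw [this, Real.sqrt_one]
        refine ⟨Complex.arg z, ?_, ?_⟩
        · have := Complex.norm_mul_cos_arg z
          rw [hz, one_mul] at this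
          exact this
        · have := Complex.norm_mul_sin_arg z
          rw [hz, one_mul] at this
          exact this
      obtain ⟨t, ht1, ht2⟩ := this
      refine ⟨(t, p.2.2), ⟨trivial, h2⟩, ?_⟩
      simp only [ht1, ht2]
    · rintro ⟨⟨t, q⟩, ⟨_, hq⟩, rfl⟩
      exact ⟨Real.cos_sq_add_sin_sq t, hq⟩
  rw [h1]
  apply (isConnected_univ.prod sphere_connected).image
  fun_prop

end

end Pool.Agent.H62.Bm
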