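import Mathlib

/-!
# A D-type latin square of order `32` whose square is latin (MP_2f0703_co)

The rows are the translates over `Z_2 ^ 5` of the permutation which fixes `0` and moves
the other elements along the cycle `1 2 4 5 7 3 30 14 16 24 10 15 22 27 23 25 12 19 28 13 21 31 8 20 29 11 17 26 9 18 6` (binary digits; addition is exclusive or).
-/

set_option autoImplicit false

namespace Pool.Agent.H62.DE32

def f32 (y : ℕ) : ℕ := [0, 2, 4, 30, 5, 7, 1, 3, 20, 18, 15, 17, 19, 21, 16, 22, 24, 26, 6, 28, 29, 31, 27, 25, 10, 12, 9, 23, 13, 11, 14, 8].getD y 0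

def g32 (y : ℕ) : ℕ := [0, 6, 1, 7, 2, 4, 18, 5, 31, 26, 24, 29, 25, 28, 30, 10, 14, 11, 9, 12, 8, 13, 15, 27, 16, 23, 17, 22, 19, 20, 3, 21].getD y 0

def p32 (y : ℕ) : ℕ := [0, 0, 1, 5, 2, 3, 30, 4, 22, 28, 10, 25, 16, 19, 7, 11, 8, 26, 29, 17, 23, 20, 12, 14, 9, 15, 27, 13, 18, 24, 6, 21].getD y 0

def R (i x : Fin 32) : Fin 32 := Fin.ofNat 32 (i.val ^^^ f32 (x.val ^^^ i.val))

def S (i x : Fin 32) : Fin 32 := Fin.ofNat 32 (i.val ^^^ g32 (x.val ^^^ i.val))

def kk (i x y : Fin 32) : ℕ := (p32 (y.val ^^^ i.val) + 31 - p32 (x.val ^^^ i.val)) % 31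

theorem left : ∀ i x : Fin 32, S i (R i x) = x := by decide +kernel

theorem right : ∀ i x : Fin 32, R i (S i x) = x := by decide +kernel

def Lp (i : Fin 32) : Equiv.Perm (Fin 32) := ⟨R i, S i, left i, right i⟩

theorem latin : ∀ j i i' : Fin 32, R i j = R i' j → i = i' := by decide +kernel

theorem latin2 : ∀ j i i' : Fin 32, R i (R i j) = R i' (R i' j) → i = i' := by decide +kernel

theorem fix : ∀ i : Fin 32, R i i = i := by decide +kernel

theorem fix' : ∀ i x : Fin 32, R i x = x → x = i := by decide +kernel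

theorem cycle : ∀ i x y : Fin 32, x ≠ i → y ≠ i → (R i)^[kk i x y] x = y := by decide +kernel

theorem pow (i : Fin 32) (k : ℕ) (x : Fin 32) : (Lp i ^ k) x = (R i)^[k] x := by
  induction k generalizing x with
  | zero => rfl
  | succ n ih =>
    rw [pow_succ, Equiv.Perm.mul_apply, ih, Function.iterate_succ_apply]
    rfl

theorem thirtytwo : ∃ L : Fin 32 → Equiv.Perm (Fin 32),
    (∀ j : Fin 32, Function.Injective (fun i => L i j)) ∧
    (∀ i : Fin 32, (∃! x, L i x = x) ∧ ∀ x y, L i x ≠ x → L i y ≠ y → ∃ k : ℕ, ((L i) ^ k) x = y) ∧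
    (¬ ∃ (G : Type) (_ : Group G) (r c s : Fin 32 ≃ G), ∀ i j, s (L i j) = r i * c j) ∧
    ∀ j : Fin 32, Function.Injective (fun i => (L i * L i) j) := by
  refine ⟨Lp, ?_, ?_, ?_, ?_⟩
  · intro j i i' h
    exact latin j i i' h
  · intro i
    refine ⟨⟨i, fix i, fun x hx => fix' i x hx⟩, ?_⟩
    intro x y hx hy
    refine ⟨kk i x y, ?_⟩
    rw [pow]
    refine cycle i x y ?_ ?_
    · rintro rfl
      exact hx (fix x)
    · rintro rfl
      exact hy (fix y)
  · rintro ⟨G, _, r, c, s, H⟩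
    have key : ∀ i1 i2 j1 j2 : Fin 32, s (Lp i2 j2) = s (Lp i2 j1) * (s (Lp i1 j1))⁻¹ * s (Lp i1 j2) := by
      intro i1 i2 j1 j2
      rw [H, H, H, H]
      group
    have h1 := key 0 1 7 21
    have h2 := key 1 0 0 2
    have e1 : Lp 1 7 = Lp 0 0 := by decide +kernel
    have e2 : Lp 0 7 = Lp 1 0 := by decide +kernel
    have e3 : Lp 0 21 = Lp 1 2 := by decide +kernel
    have e4 : Lp 1 21 ≠ Lp 0 2 := by decide +kernel
    rw [e1, e2, e3] at h1
    exact e4 (s.injective (h1.trans h2.symm))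
  · intro j i i' h
    exact latin2 j i i' h

end Pool.Agent.H62.DE32
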