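import Mathlib.Analysis.Normed.Group.AddCircle
import Mathlib.Topology.ContinuousMap.Bounded.Normed
import Mathlib.Topology.Algebra.Group.Basic
import Mathlib.Analysis.SpecificLimits.Basic

set_option autoImplicit false

namespace Pool.Agent.H62.Mackey

open scoped BigOperators

/-- Every element of the circle has a real lift whose absolute value is its norm. -/
lemma exists_real_lift (x : UnitAddCircle) :
    ∃ r : ℝ, (r : UnitAddCircle) = x ∧ |r| = ‖x‖ := by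
  induction x using QuotientAddGroup.induction_on with
  | H y =>
    refine ⟨y - round y, ?_, ?_⟩
    · have : ((round y : ℤ) : ℝ) = (round y : ℤ) • (1 : ℝ) := by simp
      rw [AddCircle.coe_sub, this, AddCircle.coe_zsmul, AddCircle.coe_period, smul_zero, sub_zero]
    · exact (UnitAddCircle.norm_eq (x := y)).symm

lemma norm_le_half (x : UnitAddCircle) : ‖x‖ ≤ 1 / 2 := by
  have := AddCircle.norm_le_half_period (p := 1) (x := x) one_ne_zero
  simpa using this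

lemma norm_coe_of_abs_le {x : ℝ} (hx : |x| ≤ 1 / 2) : ‖(x : UnitAddCircle)‖ = |x| := by
  rw [AddCircle.norm_coe_eq_abs_iff (p := 1) one_ne_zero]
  simpa using hx

lemma norm_coe_le_abs (x : ℝ) : ‖(x : UnitAddCircle)‖ ≤ |x| := by
  rw [UnitAddCircle.norm_eq]
  simpa using round_le x 0

lemma norm_zsmul_le' (k : ℤ) (x : UnitAddCircle) : ‖k • x‖ ≤ |(k : ℝ)| * ‖x‖ := by
  have := norm_zsmul_le k x
  simpa [Int.norm_eq_abs] using this

/-- Small multiples: if the first `J` multiples of `y` have norm at most `1/4`, then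
`‖y‖ ≤ 1/(4J)`. -/
lemma norm_le_of_multiples (y : UnitAddCircle) (J : ℕ) (hJ : 1 ≤ J)
    (h : ∀ j : ℕ, 1 ≤ j → j ≤ J → ‖(j : ℤ) • y‖ ≤ 1 / 4) : ‖y‖ ≤ 1 / (4 * J) := by
  obtain ⟨r, hr, hr'⟩ := exists_real_lift y
  have key : ∀ j : ℕ, 1 ≤ j → j ≤ J → (j : ℝ) * |r| ≤ 1 / 4 := by
    intro j
    induction j with
    | zero => intro h0; omega
    | succ j ih =>
      intro _ hjJ
      rcases Nat.eq_zero_or_pos j with hj | hj
      · subst hj
        have := h 1 le_rfl hJ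
        simp only [Nat.cast_one, one_smul] at this
        simpa [hr'] using this
      · have h1 := ih hj (by omega)
        have h2 := h (j + 1) (by omega) hjJ
        have h0 : |r| ≤ 1 / 4 := by
          have := h 1 le_rfl hJ
          simp only [Nat.cast_one, one_smul] at this
          simpa [hr'] using this
        have e1 : (((j + 1 : ℕ) : ℤ) • y) = (((j + 1 : ℕ) : ℝ) * r : ℝ) := by
          rw [← hr, ← AddCircle.coe_zsmul]
          simp
        rw [e1] at h2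
        have habs : |((j + 1 : ℕ) : ℝ) * r| = ((j + 1 : ℕ) : ℝ) * |r| := by
          rw [abs_mul, abs_of_nonneg (by positivity)]
        have hle : |((j + 1 : ℕ) : ℝ) * r| ≤ 1 / 2 := by
          rw [habs]; push_cast; nlinarith
        rw [norm_coe_of_abs_le hle, habs] at h2
        exact h2
  have := key J hJ le_rfl
  rw [← hr']
  have hJ' : (0 : ℝ) < J := by exact_mod_cast hJ
  rw [le_div_iff₀ (by positivity)]
  nlinarith

/-- An element all of whose multiples are in the open ball of radius `1/3` is zero. -/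
lemma eq_zero_of_multiples (y : UnitAddCircle) (h : ∀ k : ℤ, ‖k • y‖ < 1 / 3) : y = 0 := by
  by_contra hy
  obtain ⟨r, hr, hr'⟩ := exists_real_lift y
  have hpos : 0 < |r| := by rw [hr']; exact norm_pos_iff.mpr hy
  have key : ∀ j : ℕ, (j : ℝ) * |r| < 1 / 3 := by
    intro j
    induction j with
    | zero => norm_num
    | succ j ih =>
      have h2 := h ((j + 1 : ℕ) : ℤ)
      have h0 : |r| < 1 / 3 := by
        have := h 1
        simpa [hr'] using this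
      have e1 : (((j + 1 : ℕ) : ℤ) • y) = (((j + 1 : ℕ) : ℝ) * r : ℝ) := by
        rw [← hr, ← AddCircle.coe_zsmul]
        simp
      rw [e1] at h2
      have habs : |((j + 1 : ℕ) : ℝ) * r| = ((j + 1 : ℕ) : ℝ) * |r| := by
        rw [abs_mul, abs_of_nonneg (by positivity)]
      by_contra hcon
      push Not at hcon
      have hlt : ((j + 1 : ℕ) : ℝ) * |r| < 2 / 3 := by push_cast; nlinarith
      rcases le_or_gt (((j + 1 : ℕ) : ℝ) * |r|) (1 / 2) with hle | hgt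
      · rw [norm_coe_of_abs_le (by rw [habs]; exact hle), habs] at h2
        linarith
      · -- between 1/2 and 2/3 : the norm is 1 - value > 1/3
        have hn : ‖((((j + 1 : ℕ) : ℝ) * |r| - 1 : ℝ) : UnitAddCircle)‖ < 1 / 3 := by
          have e2 : ((((j + 1 : ℕ) : ℝ) * |r| - 1 : ℝ) : UnitAddCircle) =
              ((((j + 1 : ℕ) : ℝ) * |r| : ℝ) : UnitAddCircle) := by
            rw [AddCircle.coe_sub, AddCircle.coe_period, sub_zero]
          rw [e2]
          rcases abs_choice r with hc | hc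
          · rw [hc]; exact h2
          · rw [hc, mul_neg, AddCircle.coe_neg, norm_neg]; exact h2
        have ha : |((j + 1 : ℕ) : ℝ) * |r| - 1| = 1 - ((j + 1 : ℕ) : ℝ) * |r| := by
          rw [abs_of_nonpos (by linarith)]; ring
        rw [norm_coe_of_abs_le (by rw [ha]; linarith), ha] at hn
        linarith
  obtain ⟨n, hn⟩ := exists_nat_gt (1 / 3 / |r|)
  have := key n
  rw [div_lt_iff₀ hpos] at hn
  linarith

/-- Bohr sets of the integers are syndetic. -/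
lemma syndetic (F : Finset UnitAddCircle) {δ : ℝ} (hδ : 0 < δ) :
    ∃ L : ℕ, ∀ a : ℤ, ∃ k : ℤ, a ≤ k ∧ k ≤ a + L ∧ ∀ γ ∈ F, ‖k • γ‖ ≤ δ := by
  classical
  let φ : ℤ → (F → UnitAddCircle) := fun k γ => k • (γ : UnitAddCircle)
  have htb : TotallyBounded (Set.range φ) :=
    (isCompact_univ (X := F → UnitAddCircle)).totallyBounded.subset (Set.subset_univ _)
  obtain ⟨t, htfin, ht⟩ := Metric.totallyBounded_iff.mp htb (δ / 2) (by positivity)
  -- choose representatives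
  have hrep : ∃ E : Finset ℤ, ∀ k : ℤ, ∃ e ∈ E, dist (φ k) (φ e) < δ := by
    have : ∀ y : (F → UnitAddCircle), ∃ e : ℤ, (∃ k : ℤ, dist (φ k) y < δ / 2) →
        dist (φ e) y < δ / 2 := by
      intro y
      by_cases hy : ∃ k : ℤ, dist (φ k) y < δ / 2
      · obtain ⟨k, hk⟩ := hy
        exact ⟨k, fun _ => hk⟩
      · exact ⟨0, fun h => absurd h hy⟩
    choose e he using this
    refine ⟨htfin.toFinset.image e, ?_⟩
    intro k
    have hk : φ k ∈ ⋃ y ∈ t, Metric.ball y (δ / 2) := ht (Set.mem_range_self k)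
    simp only [Set.mem_iUnion, Metric.mem_ball] at hk
    obtain ⟨y, hyt, hy⟩ := hk
    refine ⟨e y, Finset.mem_image.mpr ⟨y, htfin.mem_toFinset.mpr hyt, rfl⟩, ?_⟩
    have h2 := he y ⟨k, hy⟩
    calc dist (φ k) (φ (e y)) ≤ dist (φ k) y + dist (φ (e y)) y := dist_triangle_right _ _ _
      _ < δ / 2 + δ / 2 := add_lt_add hy h2
      _ = δ := by ring
  obtain ⟨E, hE⟩ := hrep
  let m : ℕ := ∑ e ∈ E, e.natAbs
  refine ⟨2 * m, ?_⟩
  intro a
  obtain ⟨e, heE, he⟩ := hE (a + m)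
  have hem : e.natAbs ≤ m := Finset.single_le_sum (f := fun e : ℤ => e.natAbs)
    (fun _ _ => Nat.zero_le _) heE
  refine ⟨a + m - e, by omega, by push_cast; omega, ?_⟩
  intro γ hγ
  have h1 : dist (φ (a + m) ⟨γ, hγ⟩) (φ e ⟨γ, hγ⟩) ≤ dist (φ (a + m)) (φ e) :=
    dist_le_pi_dist _ _ _
  have h2 : ‖(a + m - e) • γ‖ = dist (φ (a + m) ⟨γ, hγ⟩) (φ e ⟨γ, hγ⟩) := by
    simp only [φ, dist_eq_norm, sub_smul]
  rw [h2]
  linarith

/-- One step of the construction: a tiny nonzero element. -/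
lemma exists_step (Hs : Set UnitAddCircle)
    (hH : ∀ δ : ℝ, 0 < δ → ∃ s ∈ Hs, s ≠ 0 ∧ ‖s‖ < δ) (F : Finset UnitAddCircle) {δ : ℝ}
    (hδ : 0 < δ) :
    ∃ s : UnitAddCircle, s ∈ Hs ∧ s ≠ 0 ∧ ‖s‖ ≤ δ ∧ (∀ γ ∈ F, γ ≠ 0 → 2 * ‖s‖ ≤ δ * ‖γ‖) ∧
      ∃ L : ℕ, ((L : ℝ) + 1) * ‖s‖ ≤ δ ∧
        ∀ a : ℤ, ∃ k : ℤ, a ≤ k ∧ k ≤ a + L ∧ ∀ γ ∈ F, ‖k • γ‖ ≤ δ := by
  classical
  obtain ⟨L, hL⟩ := syndetic F hδ
  -- a lower bound for the norms of nonzero elements of F
  have hm : ∃ m : ℝ, 0 < m ∧ ∀ γ ∈ F, γ ≠ 0 → m ≤ ‖γ‖ := by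
    induction F using Finset.induction_on with
    | empty => exact ⟨1, one_pos, by simp⟩
    | insert a F ha ih =>
      have hL' : ∀ a : ℤ, ∃ k : ℤ, a ≤ k ∧ k ≤ a + L ∧ ∀ γ ∈ F, ‖k • γ‖ ≤ δ := by
        intro b
        obtain ⟨k, h1, h2, h3⟩ := hL b
        exact ⟨k, h1, h2, fun γ hγ => h3 γ (Finset.mem_insert_of_mem hγ)⟩
      obtain ⟨m, hm, hm'⟩ := ih hL'
      by_cases h0 : a = 0
      · refine ⟨m, hm, ?_⟩
        intro γ hγ hγ0
        rcases Finset.mem_insert.mp hγ with h | h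
        · exact absurd (h.trans h0) hγ0
        · exact hm' γ h hγ0
      · refine ⟨min m ‖a‖, lt_min hm (norm_pos_iff.mpr h0), ?_⟩
        intro γ hγ hγ0
        rcases Finset.mem_insert.mp hγ with h | h
        · rw [h]; exact min_le_right _ _
        · exact (min_le_left _ _).trans (hm' γ h hγ0)
  obtain ⟨m, hm, hm'⟩ := hm
  have hLpos : (0 : ℝ) < (L : ℝ) + 1 := by positivity
  obtain ⟨s, hs, hs0, hslt⟩ := hH (min (δ / ((L : ℝ) + 1)) (δ * m / 2))
    (lt_min (by positivity) (by positivity))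
  have h1 : ‖s‖ ≤ δ / ((L : ℝ) + 1) := hslt.le.trans (min_le_left _ _)
  have h2 : ‖s‖ ≤ δ * m / 2 := hslt.le.trans (min_le_right _ _)
  have h1' : ((L : ℝ) + 1) * ‖s‖ ≤ δ := by
    rw [le_div_iff₀ hLpos] at h1; linarith
  refine ⟨s, hs, hs0, ?_, ?_, L, h1', hL⟩
  · have : (0 : ℝ) ≤ L := Nat.cast_nonneg L
    nlinarith [norm_nonneg s]
  · intro γ hγ hγ0
    have := hm' γ hγ hγ0
    nlinarith

/-- The data of a very rapidly decreasing sequence in a set `Hs`, adapted to an enumeration `h`. -/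
structure Adapted (Hs : Set UnitAddCircle) (h : ℕ → UnitAddCircle) (δ : ℕ → ℝ)
    (s : ℕ → UnitAddCircle) : Prop where
  mem : ∀ i, s i ∈ Hs
  ne_zero : ∀ i, s i ≠ 0
  le_delta : ∀ i, ‖s i‖ ≤ δ i
  rapid : ∀ i j, j < i → 2 * ‖s i‖ ≤ δ i * ‖s j‖
  synd : ∀ i, ∃ L : ℕ, ((L : ℝ) + 1) * ‖s i‖ ≤ δ i ∧
    ∀ a : ℤ, ∃ k : ℤ, a ≤ k ∧ k ≤ a + L ∧ ∀ j < i, ‖k • h j‖ ≤ δ i ∧ ‖k • s j‖ ≤ δ i

theorem exists_adapted (Hs : Set UnitAddCircle)
    (hH : ∀ δ : ℝ, 0 < δ → ∃ s ∈ Hs, s ≠ 0 ∧ ‖s‖ < δ) (h : ℕ → UnitAddCircle) (δ : ℕ → ℝ)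
    (hδ : ∀ i, 0 < δ i) : ∃ s : ℕ → UnitAddCircle, Adapted Hs h δ s := by
  classical
  have hstep : ∀ (i : ℕ) (F : Finset UnitAddCircle), ∃ s : UnitAddCircle,
      s ∈ Hs ∧ s ≠ 0 ∧ ‖s‖ ≤ δ i ∧ (∀ γ ∈ F, γ ≠ 0 → 2 * ‖s‖ ≤ δ i * ‖γ‖) ∧
      ∃ L : ℕ, ((L : ℝ) + 1) * ‖s‖ ≤ δ i ∧
        ∀ a : ℤ, ∃ k : ℤ, a ≤ k ∧ k ≤ a + L ∧ ∀ γ ∈ F, ‖k • γ‖ ≤ δ i :=
    fun i F => exists_step Hs hH F (hδ i)
  choose c hc using hstep
  let F : ℕ → Finset UnitAddCircle := fun n =>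
    Nat.rec ∅ (fun i F => insert (c i F) (insert (h i) F)) n
  have hF : ∀ i, F (i + 1) = insert (c i (F i)) (insert (h i) (F i)) := fun i => rfl
  have hmono : ∀ i j, i ≤ j → F i ⊆ F j := by
    intro i j hij
    induction j, hij using Nat.le_induction with
    | base => exact Finset.Subset.refl _
    | succ j _ ih =>
      rw [hF]
      exact ih.trans ((Finset.subset_insert _ _).trans (Finset.subset_insert _ _))
  have hsF : ∀ i j, j < i → c j (F j) ∈ F i := by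
    intro i j hji
    apply hmono (j + 1) i hji
    rw [hF]; exact Finset.mem_insert_self _ _
  have hhF : ∀ i j, j < i → h j ∈ F i := by
    intro i j hji
    apply hmono (j + 1) i hji
    rw [hF]; exact Finset.mem_insert_of_mem (Finset.mem_insert_self _ _)
  refine ⟨fun i => c i (F i), ⟨?_, ?_, ?_, ?_, ?_⟩⟩
  · intro i; exact (hc i (F i)).1
  · intro i; exact (hc i (F i)).2.1
  · intro i; exact (hc i (F i)).2.2.1
  · intro i j hji
    exact (hc i (F i)).2.2.2.1 _ (hsF i j hji) (hc j (F j)).2.1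
  · intro i
    obtain ⟨L, hL, hL'⟩ := (hc i (F i)).2.2.2.2
    refine ⟨L, hL, ?_⟩
    intro a
    obtain ⟨k, h1, h2, h3⟩ := hL' a
    exact ⟨k, h1, h2, fun j hj => ⟨h3 _ (hhF i j hj), h3 _ (hsF i j hj)⟩⟩

end Pool.Agent.H62.Mackey
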