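import Mathlib.Topology.Instances.AddCircle.Real
import Mathlib.Topology.Algebra.Group.Defs
import Mathlib.Topology.Separation.Hausdorff

set_option autoImplicit false

namespace Pool.Agent.H62.Mackey

/-- The arc `T_+ = {t + Z : t ∈ [-1/4, 1/4]}` of the circle group `T = R/Z`. -/
def Tplus : Set UnitAddCircle :=
  (fun t : ℝ => (t : UnitAddCircle)) '' Set.Icc (-(1 / 4)) (1 / 4)

variable {G : Type} [AddCommGroup G]

/-- `χ : G → T` is a character which is continuous for the topology `τ`. -/
def IsContChar (τ : TopologicalSpace G) (χ : G →+ UnitAddCircle) : Prop :=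
  @Continuous G UnitAddCircle τ inferInstance χ

/-- `τ` is a Hausdorff group topology on `G`. -/
def IsGroupTopology (τ : TopologicalSpace G) : Prop :=
  @IsTopologicalAddGroup G τ _ ∧ @T2Space G τ

/-- `A` is quasi-convex for `τ`. -/
def QuasiConvex (τ : TopologicalSpace G) (A : Set G) : Prop :=
  ∀ g : G, g ∉ A →
    ∃ χ : G →+ UnitAddCircle, IsContChar τ χ ∧ (∀ a ∈ A, χ a ∈ Tplus) ∧ χ g ∉ Tplus

/-- `τ` is locally quasi-convex: `0` has a neighbourhood base of quasi-convex sets. -/
def LocallyQuasiConvex (τ : TopologicalSpace G) : Prop :=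
  ∀ U ∈ @nhds G τ 0, ∃ A ∈ @nhds G τ 0, A ⊆ U ∧ QuasiConvex τ A

/-- `τ` is precompact: finitely many translates of any neighbourhood of `0` cover `G`. -/
def Precompact (τ : TopologicalSpace G) : Prop :=
  ∀ U ∈ @nhds G τ 0, ∃ F : Set G, F.Finite ∧ ∀ g : G, ∃ f ∈ F, g - f ∈ U

/-- `τ` is Mackey: it is locally quasi-convex, and every locally quasi-convex (Hausdorff) group
topology `σ` on `G` with the same continuous characters is coarser than `τ`. -/
def IsMackey (τ : TopologicalSpace G) : Prop :=
  LocallyQuasiConvex τ ∧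
    ∀ σ : TopologicalSpace G, IsGroupTopology σ → LocallyQuasiConvex σ →
      (∀ χ : G →+ UnitAddCircle, IsContChar σ χ ↔ IsContChar τ χ) →
      ∀ U : Set G, @IsOpen G σ U → @IsOpen G τ U

end Pool.Agent.H62.Mackey
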