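import Pool.Agent.H62.MackeyCore

set_option autoImplicit false

namespace Pool.Agent.H62.Mackey

open scoped BigOperators

/-- the error scale -/
noncomputable def del (i : ℕ) : ℝ := (1 / 4 : ℝ) ^ (i + 1)

lemma del_pos (i : ℕ) : 0 < del i := by unfold del; positivity

lemma del_anti {i j : ℕ} (h : i ≤ j) : del j ≤ del i := by
  unfold del
  exact pow_le_pow_of_le_one (by norm_num) (by norm_num) (by omega)

lemma del_sum_Ico (M n : ℕ) (h : M ≤ n) :
    ∑ i ∈ Finset.Ico M n, del i + (1 / 3) * (1 / 4 : ℝ) ^ n = (1 / 3) * (1 / 4 : ℝ) ^ M := by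
  induction n, h using Nat.le_induction with
  | base => simp
  | succ n hn ih =>
    rw [Finset.sum_Ico_succ_top hn, ← ih]
    unfold del
    ring

lemma del_sum (M : ℕ) (F : Finset ℕ) (hF : ∀ i ∈ F, M ≤ i) :
    ∑ i ∈ F, del i ≤ (1 / 2 : ℝ) ^ M := by
  obtain ⟨n, hn⟩ : ∃ n, M ≤ n ∧ ∀ i ∈ F, i < n := by
    refine ⟨M + ∑ i ∈ F, (i + 1), by omega, ?_⟩
    intro i hi
    have := Finset.single_le_sum (f := fun i : ℕ => i + 1) (fun _ _ => Nat.zero_le _) hi
    omega
  have hsub : F ⊆ Finset.Ico M n := by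
    intro i hi
    exact Finset.mem_Ico.mpr ⟨hF i hi, hn.2 i hi⟩
  have h1 : ∑ i ∈ F, del i ≤ ∑ i ∈ Finset.Ico M n, del i :=
    Finset.sum_le_sum_of_subset_of_nonneg hsub (fun i _ _ => (del_pos i).le)
  have h2 := del_sum_Ico M n hn.1
  have h3 : (1 / 4 : ℝ) ^ M ≤ (1 / 2 : ℝ) ^ M :=
    pow_le_pow_left₀ (by norm_num) (by norm_num) M
  have h4 : (0 : ℝ) < (1 / 4 : ℝ) ^ n := by positivity
  have h5 : (0 : ℝ) < (1 / 4 : ℝ) ^ M := by positivity
  nlinarith

/-- Level-`i` integers. -/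
def Lev (h s : ℕ → UnitAddCircle) (i : ℕ) : Set ℤ :=
  {b : ℤ | (∀ j < i, ‖b • h j‖ ≤ del i ∧ ‖b • s j‖ ≤ del i) ∧ |(b : ℝ)| * ‖s i‖ ≤ 2}

section
variable {Hs : Set UnitAddCircle} {h s : ℕ → UnitAddCircle} (A : Adapted Hs h del s)
include A

lemma lev_zero (i : ℕ) : (0 : ℤ) ∈ Lev h s i := by
  refine ⟨fun j _ => ?_, ?_⟩
  · simp [(del_pos i).le]
  · simp

lemma lev_finite (i : ℕ) : (Lev h s i).Finite := by
  have hpos : 0 < ‖s i‖ := norm_pos_iff.mpr (A.ne_zero i)
  obtain ⟨n, hn⟩ := exists_nat_gt (2 / ‖s i‖)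
  apply (Set.finite_Icc (-(n : ℤ)) n).subset
  intro b hb
  have h1 : |(b : ℝ)| * ‖s i‖ ≤ 2 := hb.2
  have h2 : |(b : ℝ)| ≤ n := by
    rw [← le_div_iff₀ hpos] at h1
    linarith
  rw [abs_le] at h2
  constructor
  · exact_mod_cast h2.1
  · exact_mod_cast h2.2

/-- A level-`i` integer is tiny on all later `s j`, and on all earlier ones. -/
lemma lev_other {i j : ℕ} (hij : i ≠ j) {b : ℤ} (hb : b ∈ Lev h s i) : ‖b • s j‖ ≤ del i := by
  rcases lt_or_gt_of_ne hij with hlt | hgt
  · have h1 := A.rapid j i hlt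
    have h2 := norm_zsmul_le' b (s j)
    have h3 : |(b : ℝ)| * ‖s i‖ ≤ 2 := hb.2
    have h4 : |(b : ℝ)| * ‖s j‖ ≤ del j := by
      have h5 : |(b : ℝ)| * (2 * ‖s j‖) ≤ |(b : ℝ)| * (del j * ‖s i‖) :=
        mul_le_mul_of_nonneg_left h1 (abs_nonneg _)
      have h6 : |(b : ℝ)| * (del j * ‖s i‖) ≤ del j * 2 := by
        calc |(b : ℝ)| * (del j * ‖s i‖) = del j * (|(b : ℝ)| * ‖s i‖) := by ring
          _ ≤ del j * 2 := mul_le_mul_of_nonneg_left h3 (del_pos j).le
      linarith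
    exact (h2.trans h4).trans (del_anti hlt.le)
  · exact (hb.1 j hgt).2

lemma lev_late {i j : ℕ} (hij : i < j) {b : ℤ} (hb : b ∈ Lev h s i) : ‖b • s j‖ ≤ del j := by
  have h1 := A.rapid j i hij
  have h2 := norm_zsmul_le' b (s j)
  have h3 : |(b : ℝ)| * ‖s i‖ ≤ 2 := hb.2
  have h4 : |(b : ℝ)| * ‖s j‖ ≤ del j := by
    have h5 : |(b : ℝ)| * (2 * ‖s j‖) ≤ |(b : ℝ)| * (del j * ‖s i‖) :=
      mul_le_mul_of_nonneg_left h1 (abs_nonneg _)
    have h6 : |(b : ℝ)| * (del j * ‖s i‖) ≤ del j * 2 := by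
      calc |(b : ℝ)| * (del j * ‖s i‖) = del j * (|(b : ℝ)| * ‖s i‖) := by ring
        _ ≤ del j * 2 := mul_le_mul_of_nonneg_left h3 (del_pos j).le
    linarith
  exact h2.trans h4

/-- Level-`i` integers realise every value on `s i`. -/
lemma lev_approx (i : ℕ) (r : ℝ) (hr : (r : UnitAddCircle) = s i) (hr' : |r| = ‖s i‖)
    (t : ℝ) (ht : |t| ≤ 1) : ∃ b ∈ Lev h s i, |(b : ℝ) * r - t| ≤ del i := by
  have hpos : 0 < |r| := by rw [hr']; exact norm_pos_iff.mpr (A.ne_zero i)
  have hr0 : r ≠ 0 := abs_pos.mp hpos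
  obtain ⟨L, hL, hL'⟩ := A.synd i
  obtain ⟨k, hk1, hk2, hk3⟩ := hL' ⌈t / r⌉
  have h1 : (⌈t / r⌉ : ℝ) ≤ k := by exact_mod_cast hk1
  have h2 : (k : ℝ) ≤ ⌈t / r⌉ + L := by exact_mod_cast hk2
  have h3 : t / r ≤ ⌈t / r⌉ := Int.le_ceil _
  have h4 : (⌈t / r⌉ : ℝ) < t / r + 1 := Int.ceil_lt_add_one _
  have h5 : |(k : ℝ) - t / r| ≤ (L : ℝ) + 1 := by
    rw [abs_le]; constructor <;> linarith [(Nat.cast_nonneg L : (0 : ℝ) ≤ L)]
  have h6 : |(k : ℝ) * r - t| ≤ del i := by
    have : (k : ℝ) * r - t = ((k : ℝ) - t / r) * r := by field_simp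
    rw [this, abs_mul, hr']
    exact (mul_le_mul_of_nonneg_right h5 (norm_nonneg _)).trans hL
  refine ⟨k, ⟨hk3, ?_⟩, h6⟩
  rw [← hr', ← abs_mul]
  have h7 : |(k : ℝ) * r| ≤ |(k : ℝ) * r - t| + |t| := by
    have := abs_add_le ((k : ℝ) * r - t) t
    simpa using this
  have h8 : del i ≤ 1 := by
    unfold del
    exact pow_le_one₀ (by norm_num) (by norm_num)
  linarith

/-- Decomposition of an arbitrary integer. -/
lemma decomp (M : ℕ) (I : ℕ) (hMI : M ≤ I) : ∀ k : ℤ, ∃ (k' : ℤ) (b : ℕ → ℤ),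
    (∀ i, b i ∈ Lev h s i) ∧ k = k' + ∑ i ∈ Finset.Ico M I, b i ∧
    ∀ j, M ≤ j → j < I → ‖k' • s j‖ ≤ ∑ i ∈ Finset.Ico M (j + 1), del i := by
  induction I, hMI using Nat.le_induction with
  | base =>
    intro k
    refine ⟨k, fun _ => 0, fun i => lev_zero A i, by simp, ?_⟩
    intro j h1 h2; omega
  | succ I hMI ih =>
    intro k
    obtain ⟨r, hr, hr'⟩ := exists_real_lift (s I)
    obtain ⟨ρ, hρ, hρ'⟩ := exists_real_lift (k • s I)
    have hρ1 : |ρ| ≤ 1 := by rw [hρ']; linarith [norm_le_half (k • s I)]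
    obtain ⟨b0, hb0, hb0'⟩ := lev_approx A I r hr hr' ρ hρ1
    obtain ⟨k', b, hb, hk, hj⟩ := ih (k - b0)
    refine ⟨k', fun i => if i = I then b0 else b i, ?_, ?_, ?_⟩
    · intro i
      by_cases hi : i = I
      · simp only [hi, if_true]; exact hb0
      · simp only [hi, if_false]; exact hb i
    · rw [Finset.sum_Ico_succ_top hMI]
      simp only [if_true]
      have : ∑ i ∈ Finset.Ico M I, (if i = I then b0 else b i) = ∑ i ∈ Finset.Ico M I, b i := by
        apply Finset.sum_congr rfl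
        intro i hi
        have := (Finset.mem_Ico.mp hi).2
        rw [if_neg (by omega)]
      rw [this]
      linarith
    · intro j hMj hjI
      rcases Nat.lt_succ_iff_lt_or_eq.mp hjI with hlt | heq
      · exact hj j hMj hlt
      · subst heq
        rw [Finset.sum_Ico_succ_top hMI]
        have e1 : k' • s j = (k - b0) • s j - ∑ i ∈ Finset.Ico M j, b i • s j := by
          rw [← Finset.sum_smul, ← sub_smul]
          congr 1
          linarith
        rw [e1]
        have e2 : ‖(k - b0) • s j‖ ≤ del j := by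
          have : (k - b0) • s j = ((ρ - (b0 : ℝ) * r : ℝ) : UnitAddCircle) := by
            rw [sub_smul, AddCircle.coe_sub, hρ, ← hr, ← AddCircle.coe_zsmul]
            simp
          rw [this]
          refine (norm_coe_le_abs _).trans ?_
          rw [abs_sub_comm]; exact hb0'
        have e3 : ‖∑ i ∈ Finset.Ico M j, b i • s j‖ ≤ ∑ i ∈ Finset.Ico M j, del i := by
          refine (norm_sum_le _ _).trans ?_
          apply Finset.sum_le_sum
          intro i hi
          have := (Finset.mem_Ico.mp hi).2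
          exact lev_other A (by omega) (hb i)
        calc ‖(k - b0) • s j - ∑ i ∈ Finset.Ico M j, b i • s j‖
            ≤ ‖(k - b0) • s j‖ + ‖∑ i ∈ Finset.Ico M j, b i • s j‖ := norm_sub_le _ _
          _ ≤ _ := by linarith

/-- The key theorem: an element `x` of the circle which is bounded by `1/4` on a neighbourhood of
the finer topology is continuous for the coarser one. -/
theorem dual_core (x : UnitAddCircle) (N : ℕ) (ε : ℝ) (hε : 0 < ε)
    (hx : ∀ k : ℤ, (∀ j < N, ‖k • h j‖ ≤ ε) → (∀ j, ‖k • s j‖ ≤ ε) → ‖k • x‖ ≤ 1 / 4)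
    (κ : ℝ) (hκ : 0 < κ) :
    ∃ (M : ℕ) (η : ℝ), 0 < η ∧ ∀ k : ℤ, (∀ j < M, ‖k • h j‖ ≤ η ∧ ‖k • s j‖ ≤ η) →
      ‖k • x‖ ≤ κ := by
  classical
  -- linear bound
  have hlin : ∀ ρ : ℝ, 0 < ρ → ∀ k : ℤ, (∀ j < N, ‖k • h j‖ ≤ ρ) → (∀ j, ‖k • s j‖ ≤ ρ) →
      ‖k • x‖ ≤ ρ / (2 * ε) := by
    intro ρ hρ k hk1 hk2
    rcases le_or_gt ρ ε with hle | hgt
    · have hJ1 : 1 ≤ ε / ρ := by rw [le_div_iff₀ hρ]; linarith
      set J := ⌊ε / ρ⌋₊ with hJdef
      have hJ : 1 ≤ J := by rw [hJdef]; exact Nat.one_le_floor_iff _ |>.mpr hJ1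
      have hJle : (J : ℝ) ≤ ε / ρ := Nat.floor_le (by positivity)
      have hJlt : ε / ρ < J + 1 := Nat.lt_floor_add_one _
      have hJR : (1 : ℝ) ≤ J := by exact_mod_cast hJ
      have hJρ : (J : ℝ) * ρ ≤ ε := by rw [le_div_iff₀ hρ] at hJle; exact hJle
      have h1 : ‖k • x‖ ≤ 1 / (4 * J) := by
        apply norm_le_of_multiples _ J hJ
        intro j hj1 hjJ
        rw [smul_smul]
        have hjR : (j : ℝ) ≤ J := by exact_mod_cast hjJ
        have hb : ∀ y : UnitAddCircle, ‖k • y‖ ≤ ρ → ‖((j : ℤ) * k) • y‖ ≤ ε := by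
          intro y hy
          rw [mul_smul]
          refine (norm_zsmul_le' _ _).trans ?_
          have : |((j : ℤ) : ℝ)| = j := by simp
          rw [this]
          calc (j : ℝ) * ‖k • y‖ ≤ J * ρ := by
                apply mul_le_mul hjR hy (norm_nonneg _) (by positivity)
            _ ≤ ε := hJρ
        exact hx _ (fun j' hj' => hb _ (hk1 j' hj')) (fun j' => hb _ (hk2 j'))
      refine h1.trans ?_
      rw [div_le_div_iff₀ (by positivity) (by positivity)]
      have h2 : ε / ρ ≤ 2 * J := by linarith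
      rw [div_le_iff₀ hρ] at h2
      nlinarith
    · refine (norm_le_half _).trans ?_
      rw [div_le_div_iff₀ (by norm_num) (by positivity)]
      nlinarith
  -- choice of the maximisers
  let B' : ℕ → Set ℤ := fun i => {b | b ∈ Lev h s i ∧ |(b : ℝ)| * ‖s i‖ ≤ ε / 2}
  have hB'fin : ∀ i, (B' i).Finite := fun i => (lev_finite A i).subset (fun b hb => hb.1)
  have hB'0 : ∀ i, (0 : ℤ) ∈ B' i := by
    intro i
    refine ⟨lev_zero A i, ?_⟩
    simp only [Int.cast_zero, abs_zero, zero_mul]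
    positivity
  have hmax : ∀ i, ∃ b ∈ B' i, ∀ c ∈ B' i, ‖c • x‖ ≤ ‖b • x‖ := by
    intro i
    exact Set.exists_max_image (B' i) (fun b => ‖b • x‖) (hB'fin i) ⟨0, hB'0 i⟩
  choose bs hbs hbsmax using hmax
  -- tail index
  obtain ⟨M0, hM0⟩ : ∃ M0 : ℕ, N ≤ M0 ∧ (1 / 2 : ℝ) ^ M0 ≤ ε / 4 := by
    obtain ⟨m, hm⟩ := exists_pow_lt_of_lt_one (show 0 < ε / 4 by positivity)
      (show (1 / 2 : ℝ) < 1 by norm_num)
    refine ⟨max N m, le_max_left _ _, ?_⟩
    exact (pow_le_pow_of_le_one (by norm_num) (by norm_num) (le_max_right _ _)).trans hm.le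
  have hbsnorm : ∀ i, ‖bs i • s i‖ ≤ ε / 2 := fun i =>
    (norm_zsmul_le' _ _).trans (hbs i).2
  -- signs
  have hsgn : ∀ i, ∃ (e : ℤ), (e = 1 ∨ e = -1) ∧
      (e * bs i) • x = ((‖bs i • x‖ : ℝ) : UnitAddCircle) := by
    intro i
    obtain ⟨r, hr, hr'⟩ := exists_real_lift (bs i • x)
    rcases abs_choice r with hc | hc
    · refine ⟨1, Or.inl rfl, ?_⟩
      rw [one_mul, ← hr', hc, hr]
    · refine ⟨-1, Or.inr rfl, ?_⟩
      rw [← hr', hc, AddCircle.coe_neg, hr, neg_one_mul, neg_smul]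
  choose e he he' using hsgn
  have hsum : ∀ F : Finset ℕ, (∀ i ∈ F, M0 ≤ i) → ∑ i ∈ F, ‖bs i • x‖ ≤ 1 / 4 := by
    -- first: every finite sum is in the neighbourhood
    have hmem : ∀ F : Finset ℕ, (∀ i ∈ F, M0 ≤ i) →
        ‖(∑ i ∈ F, e i * bs i) • x‖ ≤ 1 / 4 := by
      intro F hF
      have hdel := del_sum M0 F hF
      have habs : ∀ i (y : UnitAddCircle), ‖(e i * bs i) • y‖ = ‖bs i • y‖ := by
        intro i y
        rcases he i with h1 | h1
        · rw [h1, one_mul]
        · rw [h1, neg_one_mul, neg_smul, norm_neg]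
      apply hx
      · intro j hj
        rw [Finset.sum_smul]
        calc ‖∑ i ∈ F, (e i * bs i) • h j‖ ≤ ∑ i ∈ F, ‖(e i * bs i) • h j‖ := norm_sum_le _ _
          _ ≤ ∑ i ∈ F, del i := by
              apply Finset.sum_le_sum
              intro i hi
              rw [habs]
              have : j < i := by have := hF i hi; omega
              exact ((hbs i).1.1 j this).1
          _ ≤ ε := by linarith [hM0.2]
      · intro j
        rw [Finset.sum_smul]
        have hbound : ∀ i ∈ F, ‖(e i * bs i) • s j‖ ≤ del i + (if i = j then ε / 2 else 0) := by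
          intro i _
          rw [habs]
          by_cases hij : i = j
          · rw [if_pos hij, ← hij]
            linarith [hbsnorm i, del_pos i]
          · rw [if_neg hij, add_zero]
            exact lev_other A hij (hbs i).1
        calc ‖∑ i ∈ F, (e i * bs i) • s j‖ ≤ ∑ i ∈ F, ‖(e i * bs i) • s j‖ := norm_sum_le _ _
          _ ≤ ∑ i ∈ F, (del i + (if i = j then ε / 2 else 0)) := Finset.sum_le_sum hbound
          _ = ∑ i ∈ F, del i + ∑ i ∈ F, (if i = j then ε / 2 else 0) := Finset.sum_add_distrib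
          _ ≤ ε / 4 + ε / 2 := by
              apply add_le_add (hdel.trans hM0.2)
              rw [Finset.sum_ite_eq']
              split_ifs
              · exact le_rfl
              · positivity
          _ ≤ ε := by linarith
    intro F
    induction F using Finset.induction_on with
    | empty => intro _; simp
    | insert a F ha ih =>
      intro hF
      have h1 := ih (fun i hi => hF i (Finset.mem_insert_of_mem hi))
      have h2 : ‖bs a • x‖ ≤ 1 / 4 := by
        have := hmem {a} (by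
          intro i hi
          rw [Finset.mem_singleton] at hi
          rw [hi]; exact hF a (Finset.mem_insert_self _ _))
        rw [Finset.sum_singleton, he'] at this
        rwa [norm_coe_of_abs_le (by rw [abs_of_nonneg (norm_nonneg _)]; exact norm_le_half _),
          abs_of_nonneg (norm_nonneg _)] at this
      have h3 := hmem (insert a F) hF
      have h4 : (∑ i ∈ insert a F, e i * bs i) • x =
          ((∑ i ∈ insert a F, ‖bs i • x‖ : ℝ) : UnitAddCircle) := by
        rw [Finset.sum_smul]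
        have : ∀ G : Finset ℕ, ∑ i ∈ G, (e i * bs i) • x =
            ((∑ i ∈ G, ‖bs i • x‖ : ℝ) : UnitAddCircle) := by
          intro G
          induction G using Finset.induction_on with
          | empty => simp
          | insert b G hb ihG =>
            rw [Finset.sum_insert hb, Finset.sum_insert hb, AddCircle.coe_add, ihG, he']
        exact this _
      rw [h4] at h3
      have h5 : ∑ i ∈ insert a F, ‖bs i • x‖ = ‖bs a • x‖ + ∑ i ∈ F, ‖bs i • x‖ :=
        Finset.sum_insert ha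
      have h6 : 0 ≤ ∑ i ∈ insert a F, ‖bs i • x‖ :=
        Finset.sum_nonneg (fun _ _ => norm_nonneg _)
      have h7 : ∑ i ∈ insert a F, ‖bs i • x‖ ≤ 1 / 2 := by rw [h5]; linarith
      rwa [norm_coe_of_abs_le (by rw [abs_of_nonneg h6]; exact h7), abs_of_nonneg h6] at h3
  -- summability
  have hsummable : Summable (fun i => ‖bs (i + M0) • x‖) := by
    apply summable_of_sum_le (fun _ => norm_nonneg _) (c := 1 / 4)
    intro F
    have h1 := hsum (F.image (fun i => i + M0)) (by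
      intro i hi
      obtain ⟨j, _, rfl⟩ := Finset.mem_image.mp hi
      exact Nat.le_add_left _ _)
    rw [Finset.sum_image (fun a _ b _ hab => Nat.add_right_cancel hab)] at h1
    exact h1
  -- the auxiliary integer J
  obtain ⟨J, hJ2, hJε⟩ : ∃ J : ℕ, 2 ≤ J ∧ 2 / (J : ℝ) ≤ ε / 4 := by
    obtain ⟨n, hn⟩ := exists_nat_gt (8 / ε)
    refine ⟨max 2 n, le_max_left _ _, ?_⟩
    have h1 : (n : ℝ) ≤ ((max 2 n : ℕ) : ℝ) := by exact_mod_cast le_max_right 2 n
    have h2 : 8 / ε < ((max 2 n : ℕ) : ℝ) := lt_of_lt_of_le hn h1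
    have h3 : (0 : ℝ) < ((max 2 n : ℕ) : ℝ) := lt_trans (by positivity) h2
    rw [div_le_iff₀ h3]
    rw [div_lt_iff₀ hε] at h2
    linarith
  have hJpos : (0 : ℝ) < J := by
    have : (2 : ℝ) ≤ J := by exact_mod_cast hJ2
    linarith
  -- bound on all level integers
  have hlev : ∀ i, M0 ≤ i → ∀ b ∈ Lev h s i,
      ‖b • x‖ ≤ J * ‖bs i • x‖ + (((J : ℝ) + 1) * del i) / (2 * ε) := by
    intro i hi b hb
    obtain ⟨r, hr, hr'⟩ := exists_real_lift (s i)
    have hbr : |(b : ℝ) * r| ≤ 2 := by rw [abs_mul, hr']; exact hb.2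
    have hJ2' : (2 : ℝ) ≤ J := by exact_mod_cast hJ2
    have ht : |(b : ℝ) * r / J| ≤ 2 / J := by
      rw [abs_div, abs_of_pos hJpos]
      exact div_le_div_of_nonneg_right hbr hJpos.le
    have ht1 : |(b : ℝ) * r / J| ≤ 1 := by
      refine ht.trans ?_
      rw [div_le_one hJpos]; exact hJ2'
    obtain ⟨c, hc, hc'⟩ := lev_approx A i r hr hr' _ ht1
    have hdi : del i ≤ ε / 4 := by
      have h1 := del_sum M0 {i} (by simpa using hi)
      rw [Finset.sum_singleton] at h1
      exact h1.trans hM0.2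
    have hcB : c ∈ B' i := by
      refine ⟨hc, ?_⟩
      rw [← hr', ← abs_mul]
      have : |(c : ℝ) * r| ≤ |(c : ℝ) * r - (b : ℝ) * r / J| + |(b : ℝ) * r / J| := by
        have := abs_add_le ((c : ℝ) * r - (b : ℝ) * r / J) ((b : ℝ) * r / J)
        simpa using this
      linarith
    have hcx := hbsmax i c hcB
    -- the difference
    have hdiff : ‖(b - J * c) • x‖ ≤ (((J : ℝ) + 1) * del i) / (2 * ε) := by
      have hgen : ∀ y : UnitAddCircle, ‖b • y‖ ≤ del i → ‖c • y‖ ≤ del i →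
          ‖(b - J * c) • y‖ ≤ ((J : ℝ) + 1) * del i := by
        intro y h1 h2
        rw [sub_smul, mul_smul]
        refine (norm_sub_le _ _).trans ?_
        have h3 := norm_zsmul_le' (J : ℤ) (c • y)
        have h4 : |((J : ℤ) : ℝ)| = J := by simp
        rw [h4] at h3
        have h5 : (J : ℝ) * ‖c • y‖ ≤ J * del i := mul_le_mul_of_nonneg_left h2 hJpos.le
        linarith
      apply hlin _ (mul_pos (by positivity) (del_pos i))
      · intro j hj
        have hji : j < i := by omega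
        exact hgen _ (hb.1 j hji).1 (hc.1 j hji).1
      · intro j
        by_cases hij : i = j
        · subst hij
          have e1 : (b - J * c) • s i = (((b : ℝ) * r - J * ((c : ℝ) * r) : ℝ) : UnitAddCircle) := by
            rw [← hr, ← AddCircle.coe_zsmul]
            congr 1
            simp only [zsmul_eq_mul, Int.cast_sub, Int.cast_mul, Int.cast_natCast]
            ring
          rw [e1]
          refine (norm_coe_le_abs _).trans ?_
          have e2 : (b : ℝ) * r - J * ((c : ℝ) * r) = -(J * ((c : ℝ) * r - (b : ℝ) * r / J)) := by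
            field_simp
            ring
          rw [e2, abs_neg, abs_mul, abs_of_pos hJpos]
          have : (J : ℝ) * |(c : ℝ) * r - (b : ℝ) * r / J| ≤ J * del i :=
            mul_le_mul_of_nonneg_left hc' hJpos.le
          linarith [del_pos i]
        · exact hgen _ (lev_other A hij hb) (lev_other A hij hc)
    have e3 : b • x = (b - J * c) • x + (J : ℤ) • (c • x) := by
      rw [smul_smul, ← add_smul]; congr 1; ring
    rw [e3]
    refine (norm_add_le _ _).trans ?_
    have h6 := norm_zsmul_le' (J : ℤ) (c • x)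
    have h7 : |((J : ℤ) : ℝ)| = J := by simp
    rw [h7] at h6
    have h8 : (J : ℝ) * ‖c • x‖ ≤ J * ‖bs i • x‖ := mul_le_mul_of_nonneg_left hcx hJpos.le
    linarith
  -- choose the tail index M
  obtain ⟨M, hMM0, hMx, hMd⟩ : ∃ M : ℕ, M0 ≤ M ∧
      (∀ F : Finset ℕ, (∀ i ∈ F, M ≤ i) → J * ∑ i ∈ F, ‖bs i • x‖ ≤ κ / 4) ∧
      (((J : ℝ) + 1) * (1 / 2) ^ M) / (2 * ε) ≤ κ / 4 ∧ (2 * (1 / 2 : ℝ) ^ M) / (2 * ε) ≤ κ / 4 := by
    have hvan := hsummable.vanishing (e := Metric.ball 0 (κ / (4 * J)))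
      (Metric.ball_mem_nhds _ (by positivity))
    obtain ⟨s0, hs0⟩ := hvan
    obtain ⟨m1, hm1⟩ := exists_pow_lt_of_lt_one
      (show 0 < κ / 4 * (2 * ε) / ((J : ℝ) + 2) by positivity)
      (show (1 / 2 : ℝ) < 1 by norm_num)
    obtain ⟨m2, hm2⟩ : ∃ m2 : ℕ, ∀ i ∈ s0, i < m2 :=
      ⟨∑ i ∈ s0, (i + 1), fun i hi => by
        have := Finset.single_le_sum (f := fun i : ℕ => i + 1) (fun _ _ => Nat.zero_le _) hi
        omega⟩
    have hp : (1 / 2 : ℝ) ^ (M0 + m1 + m2) ≤ (1 / 2) ^ m1 :=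
      pow_le_pow_of_le_one (by norm_num) (by norm_num) (by omega)
    have hp' : ((J : ℝ) + 2) * (1 / 2 : ℝ) ^ (M0 + m1 + m2) ≤ κ / 4 * (2 * ε) := by
      have h1 : (1 / 2 : ℝ) ^ (M0 + m1 + m2) ≤ κ / 4 * (2 * ε) / ((J : ℝ) + 2) := hp.trans hm1.le
      rw [le_div_iff₀ (by positivity)] at h1
      linarith
    have hq : (0 : ℝ) < (1 / 2 : ℝ) ^ (M0 + m1 + m2) := by positivity
    refine ⟨M0 + m1 + m2, by omega, ?_, ?_, ?_⟩
    · intro F hF
      let G : Finset ℕ := F.image (fun i => i - M0)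
      have hdisj : Disjoint G s0 := by
        rw [Finset.disjoint_left]
        intro i hi his0
        obtain ⟨j, hj, rfl⟩ := Finset.mem_image.mp hi
        have h1 := hF j hj
        have h2 := hm2 _ his0
        omega
      have h3 := hs0 G hdisj
      have h4 : ∑ i ∈ G, ‖bs (i + M0) • x‖ = ∑ i ∈ F, ‖bs i • x‖ := by
        rw [Finset.sum_image]
        · apply Finset.sum_congr rfl
          intro i hi
          have := hF i hi
          rw [Nat.sub_add_cancel (by omega)]
        · intro a ha b hb hab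
          have h1 := hF a ha
          have h2 := hF b hb
          simp only at hab
          omega
      rw [h4, Metric.mem_ball, dist_zero_right, Real.norm_eq_abs,
        abs_of_nonneg (Finset.sum_nonneg (fun _ _ => norm_nonneg _))] at h3
      have h5 : (J : ℝ) * ∑ i ∈ F, ‖bs i • x‖ ≤ J * (κ / (4 * J)) :=
        mul_le_mul_of_nonneg_left h3.le hJpos.le
      have h6 : (J : ℝ) * (κ / (4 * J)) = κ / 4 := by field_simp
      linarith
    · rw [div_le_iff₀ (by positivity)]
      nlinarith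
    · rw [div_le_iff₀ (by positivity)]
      nlinarith
  refine ⟨M, (1 / 2 : ℝ) ^ M, by positivity, ?_⟩
  intro k hk
  -- choose I
  obtain ⟨I, hMI, hI⟩ : ∃ I : ℕ, M ≤ I ∧ ∀ j, I ≤ j → ‖k • s j‖ ≤ (1 / 2 : ℝ) ^ M := by
    obtain ⟨m, hm⟩ := exists_pow_lt_of_lt_one
      (show 0 < (1 / 2 : ℝ) ^ M / (|(k : ℝ)| + 1) by positivity)
      (show (1 / 4 : ℝ) < 1 by norm_num)
    refine ⟨M + m, by omega, ?_⟩
    intro j hj
    have h1 := A.le_delta j
    have h2 : del j ≤ (1 / 4 : ℝ) ^ m := by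
      unfold del
      exact pow_le_pow_of_le_one (by norm_num) (by norm_num) (by omega)
    have h3 : ‖s j‖ ≤ (1 / 2 : ℝ) ^ M / (|(k : ℝ)| + 1) := (h1.trans h2).trans hm.le
    rw [le_div_iff₀ (by positivity)] at h3
    refine (norm_zsmul_le' _ _).trans ?_
    nlinarith [norm_nonneg (s j), abs_nonneg (k : ℝ)]
  obtain ⟨k', b, hb, hkk', hj⟩ := decomp A M I hMI k
  have hIco : ∀ (m n i : ℕ), i ∈ Finset.Ico m n → m ≤ i := by
    intro m n i hi
    exact (Finset.mem_Ico.mp hi).1
  have hdelM : ∑ i ∈ Finset.Ico M I, del i ≤ (1 / 2 : ℝ) ^ M := del_sum M _ (hIco M I)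
  -- k' is small everywhere
  have hk'h : ∀ j < N, ‖k' • h j‖ ≤ 2 * (1 / 2 : ℝ) ^ M := by
    intro j hjN
    have e1 : k' • h j = k • h j - ∑ i ∈ Finset.Ico M I, b i • h j := by
      rw [← Finset.sum_smul, ← sub_smul]; congr 1; linarith
    rw [e1]
    refine (norm_sub_le _ _).trans ?_
    have h1 := (hk j (by omega)).1
    have h2 : ‖∑ i ∈ Finset.Ico M I, b i • h j‖ ≤ ∑ i ∈ Finset.Ico M I, del i := by
      refine (norm_sum_le _ _).trans (Finset.sum_le_sum ?_)
      intro i hi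
      have := hIco _ _ i hi
      exact ((hb i).1 j (by omega)).1
    linarith
  have hk's : ∀ j, ‖k' • s j‖ ≤ 2 * (1 / 2 : ℝ) ^ M := by
    intro j
    have e1 : k' • s j = k • s j - ∑ i ∈ Finset.Ico M I, b i • s j := by
      rw [← Finset.sum_smul, ← sub_smul]; congr 1; linarith
    have hpos : (0 : ℝ) < (1 / 2 : ℝ) ^ M := by positivity
    rcases lt_or_ge j M with h1 | h1
    · rw [e1]
      refine (norm_sub_le _ _).trans ?_
      have h1' := (hk j h1).2
      have h2 : ‖∑ i ∈ Finset.Ico M I, b i • s j‖ ≤ ∑ i ∈ Finset.Ico M I, del i := by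
        refine (norm_sum_le _ _).trans (Finset.sum_le_sum ?_)
        intro i hi
        have := hIco _ _ i hi
        exact ((hb i).1 j (by omega)).2
      linarith
    · rcases lt_or_ge j I with h2 | h2
      · refine (hj j h1 h2).trans ?_
        have := del_sum M (Finset.Ico M (j + 1)) (hIco _ _)
        linarith
      · rw [e1]
        refine (norm_sub_le _ _).trans ?_
        have h3 : ‖∑ i ∈ Finset.Ico M I, b i • s j‖ ≤ ∑ i ∈ Finset.Ico M I, del i := by
          refine (norm_sum_le _ _).trans (Finset.sum_le_sum ?_)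
          intro i hi
          have := (Finset.mem_Ico.mp hi).2
          exact lev_other A (by omega) (hb i)
        have h4 := hI j h2
        linarith
  have hk'x : ‖k' • x‖ ≤ κ / 4 :=
    (hlin _ (by positivity) k' hk'h hk's).trans hMd.2
  have e2 : k • x = k' • x + ∑ i ∈ Finset.Ico M I, b i • x := by
    rw [← Finset.sum_smul, ← add_smul]; congr 1
  rw [e2]
  refine (norm_add_le _ _).trans ?_
  have h1 : ‖∑ i ∈ Finset.Ico M I, b i • x‖ ≤
      ∑ i ∈ Finset.Ico M I, (J * ‖bs i • x‖ + (((J : ℝ) + 1) * del i) / (2 * ε)) := by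
    refine (norm_sum_le _ _).trans (Finset.sum_le_sum ?_)
    intro i hi
    exact hlev i (hMM0.trans (hIco _ _ i hi)) (b i) (hb i)
  have h2 : ∑ i ∈ Finset.Ico M I, (J * ‖bs i • x‖ + (((J : ℝ) + 1) * del i) / (2 * ε)) =
      J * ∑ i ∈ Finset.Ico M I, ‖bs i • x‖ +
        (((J : ℝ) + 1) * ∑ i ∈ Finset.Ico M I, del i) / (2 * ε) := by
    rw [Finset.sum_add_distrib, Finset.mul_sum, Finset.mul_sum, div_eq_mul_inv, Finset.sum_mul]
    simp only [div_eq_mul_inv]
  have h3 := hMx _ (hIco M I)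
  have h4 : (((J : ℝ) + 1) * ∑ i ∈ Finset.Ico M I, del i) / (2 * ε) ≤ κ / 4 := by
    refine le_trans ?_ hMd.1
    apply div_le_div_of_nonneg_right _ (by positivity)
    exact mul_le_mul_of_nonneg_left hdelM (by positivity)
  linarith

end

end Pool.Agent.H62.Mackey
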