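import Pool.Agent.H62.MackeyTop
import Mathlib.Topology.Algebra.Group.Basic

set_option autoImplicit false

namespace Pool.Agent.H62.Mackey

open scoped BigOperators Topology

/-- the character `k ↦ k x` of the integers -/
noncomputable def chr (x : UnitAddCircle) : ℤ →+ UnitAddCircle := zmultiplesHom UnitAddCircle x

lemma chr_apply (x : UnitAddCircle) (k : ℤ) : chr x k = k • x := by
  simp [chr]

lemma chr_eta (χ : ℤ →+ UnitAddCircle) : chr (χ 1) = χ := by
  ext
  simp [chr]

/-- evaluation on a sequence, as a homomorphism into bounded sequences -/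
noncomputable def seqHom (s : ℕ → UnitAddCircle) :
    ℤ →+ BoundedContinuousFunction ℕ UnitAddCircle where
  toFun k := BoundedContinuousFunction.ofNormedAddCommGroupDiscrete (fun n => k • s n) (1 / 2)
    (fun n => norm_le_half _)
  map_zero' := by
    ext n
    simp
  map_add' k l := by
    ext n
    simp [add_smul]

lemma seqHom_apply (s : ℕ → UnitAddCircle) (k : ℤ) (n : ℕ) : seqHom s k n = k • s n := rfl

lemma seqHom_norm_le (s : ℕ → UnitAddCircle) (k : ℤ) {C : ℝ} (hC : 0 ≤ C) :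
    ‖seqHom s k‖ ≤ C ↔ ∀ n, ‖k • s n‖ ≤ C := by
  rw [BoundedContinuousFunction.norm_le hC]
  rfl

/-- the finer topology -/
@[reducible] noncomputable def finer (τ : TopologicalSpace ℤ) (s : ℕ → UnitAddCircle) : TopologicalSpace ℤ :=
  τ ⊓ TopologicalSpace.induced (seqHom s) inferInstance

lemma finer_group (τ : TopologicalSpace ℤ) (hτ : @IsTopologicalAddGroup ℤ τ _)
    (s : ℕ → UnitAddCircle) : @IsTopologicalAddGroup ℤ (finer τ s) _ := by
  exact topologicalAddGroup_inf hτ (topologicalAddGroup_induced (seqHom s))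

lemma finer_nhds (τ : TopologicalSpace ℤ) (s : ℕ → UnitAddCircle) (U : Set ℤ) :
    U ∈ @nhds ℤ (finer τ s) 0 ↔
      ∃ V ∈ @nhds ℤ τ 0, ∃ ε : ℝ, 0 < ε ∧ ∀ k ∈ V, ‖seqHom s k‖ < ε → k ∈ U := by
  unfold finer
  rw [nhds_inf, nhds_induced, map_zero, Filter.mem_inf_iff_superset]
  constructor
  · rintro ⟨V, hV, W, hW, hVW⟩
    obtain ⟨W', hW', hWW⟩ := Filter.mem_comap.mp hW
    obtain ⟨ε, hε, hball⟩ := Metric.mem_nhds_iff.mp hW'
    refine ⟨V, hV, ε, hε, ?_⟩
    intro k hk hkε
    apply hVW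
    refine ⟨hk, hWW ?_⟩
    apply hball
    simpa using hkε
  · rintro ⟨V, hV, ε, hε, h⟩
    refine ⟨V, hV, (seqHom s) ⁻¹' Metric.ball 0 ε, ?_, ?_⟩
    · exact Filter.preimage_mem_comap (Metric.ball_mem_nhds _ hε)
    · rintro k ⟨hk, hk'⟩
      apply h k hk
      simpa using hk'

/-- neighbourhoods of zero given by finitely many continuous characters -/
lemma char_nhds (τ : TopologicalSpace ℤ) (x : UnitAddCircle) (hx : IsContChar τ (chr x))
    {η : ℝ} (hη : 0 < η) : {k : ℤ | ‖k • x‖ ≤ η} ∈ @nhds ℤ τ 0 := by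
  have hχ' : @Continuous ℤ UnitAddCircle τ inferInstance (chr x) := hx
  have h2 : Filter.Tendsto (chr x) (@nhds ℤ τ 0) (𝓝 (chr x 0)) := @Continuous.tendsto _ _ τ _ _ hχ' 0
  rw [map_zero] at h2
  have h4 := h2 (Metric.closedBall_mem_nhds (0 : UnitAddCircle) hη)
  have h5 : {k : ℤ | ‖k • x‖ ≤ η} = (chr x) ⁻¹' Metric.closedBall 0 η := by
    ext g
    simp [chr_apply]
  rw [h5]
  exact h4

lemma chars_nhds (τ : TopologicalSpace ℤ) (h : ℕ → UnitAddCircle)
    (hh : ∀ i, IsContChar τ (chr (h i))) {η : ℝ} (hη : 0 < η) (M : ℕ) :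
    {k : ℤ | ∀ j < M, ‖k • h j‖ ≤ η} ∈ @nhds ℤ τ 0 := by
  induction M with
  | zero => simp
  | succ M ih =>
    have h1 := Filter.inter_mem ih (char_nhds τ (h M) (hh M) hη)
    refine Filter.mem_of_superset h1 ?_
    rintro k ⟨hk1, hk2⟩ j hj
    rcases Nat.lt_succ_iff_lt_or_eq.mp hj with hlt | heq
    · exact hk1 j hlt
    · rw [heq]; exact hk2

lemma continuous_of_small {G : Type} [AddCommGroup G] [TopologicalSpace G]
    [IsTopologicalAddGroup G] (χ : G →+ UnitAddCircle)
    (h : ∀ κ : ℝ, 0 < κ → {k : G | ‖χ k‖ ≤ κ} ∈ nhds (0 : G)) : Continuous χ := by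
  apply continuous_of_continuousAt_zero
  unfold ContinuousAt
  rw [map_zero, Metric.tendsto_nhds]
  intro ε hε
  have := h (ε / 2) (by positivity)
  refine Filter.mem_of_superset this ?_
  intro k hk
  have hk' : ‖χ k‖ ≤ ε / 2 := hk
  have : dist (χ k) 0 < ε := by
    rw [dist_zero_right]
    linarith
  exact this

/-- A character bounded on arbitrarily small scales is continuous. -/
lemma isContChar_of_small (τ : TopologicalSpace ℤ) (hτ : @IsTopologicalAddGroup ℤ τ _)
    (χ : ℤ →+ UnitAddCircle) (h : ∀ κ : ℝ, 0 < κ → {k : ℤ | ‖χ k‖ ≤ κ} ∈ @nhds ℤ τ 0) :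
    IsContChar τ χ :=
  @continuous_of_small ℤ _ τ hτ χ h

theorem main (τ : TopologicalSpace ℤ) (hg : IsGroupTopology τ)
    (hm : (@nhds ℤ τ 0).IsCountablyGenerated) (hp : Precompact τ) : ¬ IsMackey τ := by
  classical
  rintro ⟨hl, hmax⟩
  obtain ⟨hτ, hT2⟩ := hg
  -- the dual group as a subset of the circle
  set Hs : Set UnitAddCircle := {x | IsContChar τ (chr x)} with hHs
  have hsub : ∀ x ∈ Hs, ∀ y ∈ Hs, x - y ∈ Hs := by
    intro x hx y hy
    apply isContChar_of_small τ hτ
    intro κ hκ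
    have h1 := char_nhds τ x hx (half_pos hκ)
    have h2 := char_nhds τ y hy (half_pos hκ)
    refine Filter.mem_of_superset (Filter.inter_mem h1 h2) ?_
    rintro k ⟨hk1, hk2⟩
    have hk1' : ‖k • x‖ ≤ κ / 2 := hk1
    have hk2' : ‖k • y‖ ≤ κ / 2 := hk2
    simp only [Set.mem_ofPred_eq, chr_apply, smul_sub]
    refine (norm_sub_le _ _).trans ?_
    linarith
  have hzero : (0 : UnitAddCircle) ∈ Hs := by
    apply isContChar_of_small τ hτ
    intro κ hκ
    have : {k : ℤ | ‖chr 0 k‖ ≤ κ} = Set.univ := by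
      ext k
      simp [chr_apply, hκ.le]
    rw [this]
    exact Filter.univ_mem
  have hcount : Hs.Countable := by
    have h1 := countable_chars τ hτ hp hm
    have h2 : Hs ⊆ (fun χ : ℤ →+ UnitAddCircle => χ 1) '' {χ | IsContChar τ χ} := by
      intro x hx
      exact ⟨chr x, hx, by simp [chr_apply]⟩
    exact (h1.image _).mono h2
  obtain ⟨h, hh⟩ := hcount.exists_eq_range ⟨0, hzero⟩
  have hhmem : ∀ i, IsContChar τ (chr (h i)) := by
    intro i
    have : h i ∈ Hs := by rw [hh]; exact Set.mem_range_self i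
    exact this
  -- a convenient form of the Bohr basis
  have hbohr : ∀ U ∈ @nhds ℤ τ 0, ∃ N : ℕ, ∀ k : ℤ, (∀ j < N, ‖k • h j‖ ≤ 1 / 4) → k ∈ U := by
    intro U hU
    obtain ⟨S, hS, hSc, hSU⟩ := bohr_basis τ hτ hp hl U hU
    have hidx : ∀ χ ∈ S, ∃ i, h i = χ 1 := by
      intro χ hχ
      have : χ 1 ∈ Hs := by
        have := hSc χ hχ
        rw [hHs, Set.mem_ofPred_eq, chr_eta]
        exact this
      rw [hh] at this
      exact this
    choose! ix hix using hidx
    refine ⟨∑ χ ∈ hS.toFinset, (ix χ + 1), ?_⟩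
    intro k hk
    apply hSU
    intro χ hχ
    have h1 : ix χ < ∑ χ ∈ hS.toFinset, (ix χ + 1) := by
      have := Finset.single_le_sum (f := fun χ : ℤ →+ UnitAddCircle => ix χ + 1)
        (fun _ _ => Nat.zero_le _) (hS.mem_toFinset.mpr hχ)
      omega
    have h2 := hk _ h1
    rw [hix χ hχ] at h2
    have h3 : χ k = k • χ 1 := by
      conv_lhs => rw [← chr_eta χ]
      exact chr_apply _ _
    rw [h3]
    exact h2
  -- the dual is infinite
  have hinf : Hs.Infinite := by
    intro hfin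
    obtain ⟨L, hL⟩ := syndetic hfin.toFinset (δ := 1 / 4) (by norm_num)
    obtain ⟨k, hk1, _, hk3⟩ := hL 1
    have hkU : ∀ U ∈ @nhds ℤ τ 0, k ∈ U := by
      intro U hU
      obtain ⟨N, hN⟩ := hbohr U hU
      apply hN
      intro j _
      apply hk3
      rw [hfin.mem_toFinset]
      exact hhmem j
    have hne : (0 : ℤ) ≠ k := by omega
    obtain ⟨u, v, hu, _, h0u, hkv, huv⟩ := @T2Space.t2 ℤ τ hT2 _ _ hne
    have := hkU u (@IsOpen.mem_nhds ℤ τ 0 u hu h0u)
    exact Set.disjoint_left.mp huv this hkv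
  have hsmall : ∀ δ : ℝ, 0 < δ → ∃ s ∈ Hs, s ≠ 0 ∧ ‖s‖ < δ := by
    intro δ hδ
    by_contra hcon
    push Not at hcon
    apply hinf
    apply finite_of_separated Hs (fun x => x) hδ
    intro a ha b hb hab
    have := hcon (a - b) (hsub a ha b hb) (sub_ne_zero.mpr hab)
    rwa [dist_eq_norm]
  obtain ⟨s, A⟩ := exists_adapted Hs hsmall h del del_pos
  have hsmem : ∀ i, IsContChar τ (chr (s i)) := A.mem
  set σ := finer τ s with hσ
  have hσg : @IsTopologicalAddGroup ℤ σ _ := finer_group τ hτ s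
  have hστ : σ ≤ τ := inf_le_left
  have hcont : ∀ χ : ℤ →+ UnitAddCircle, IsContChar τ χ → IsContChar σ χ := by
    intro χ hχ
    exact continuous_le_dom hστ hχ
  -- equality of the duals
  have hdual : ∀ χ : ℤ →+ UnitAddCircle, IsContChar σ χ ↔ IsContChar τ χ := by
    intro χ
    refine ⟨?_, hcont χ⟩
    intro hχ
    rw [← chr_eta χ] at hχ ⊢
    set x := χ 1
    have h1 := char_nhds σ x hχ (η := 1 / 4) (by norm_num)
    rw [hσ, finer_nhds] at h1
    obtain ⟨V, hV, ε, hε, hVε⟩ := h1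
    obtain ⟨N, hN⟩ := hbohr V hV
    have hkey := dual_core A x N (min (ε / 2) (1 / 4)) (lt_min (by positivity) (by norm_num)) (by
      intro k hk1 hk2
      apply hVε k
      · apply hN
        intro j hj
        exact (hk1 j hj).trans (min_le_right _ _)
      · have h3 : ‖seqHom s k‖ ≤ ε / 2 := by
          rw [seqHom_norm_le s k (by positivity)]
          intro n
          exact (hk2 n).trans (min_le_left _ _)
        linarith)
    apply isContChar_of_small τ hτ
    intro κ hκ
    obtain ⟨M, η, hη, hMη⟩ := hkey κ hκ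
    refine Filter.mem_of_superset
      (Filter.inter_mem (chars_nhds τ h hhmem hη M) (chars_nhds τ s hsmem hη M)) ?_
    rintro k ⟨hk1, hk2⟩
    simp only [Set.mem_ofPred_eq, chr_apply]
    exact hMη k (fun j hj => ⟨hk1 j hj, hk2 j hj⟩)
  -- local quasi-convexity
  have hlqc : LocallyQuasiConvex σ := by
    intro U hU
    rw [hσ, finer_nhds] at hU
    obtain ⟨V, hV, ε, hε, hVU⟩ := hU
    obtain ⟨A1, hA1, hA1V, hA1q⟩ := hl V hV
    obtain ⟨n, hn⟩ := exists_nat_gt (1 / (4 * ε))
    have hn0 : (0 : ℝ) < n := lt_trans (by positivity) hn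
    have hn1 : 1 ≤ n := by
      have : 0 < n := by exact_mod_cast hn0
      omega
    let A2 : Set ℤ := {k | ∀ m : ℕ, 1 ≤ m → m ≤ n → ∀ j, ‖((m : ℤ) * k) • s j‖ ≤ 1 / 4}
    refine ⟨A1 ∩ A2, ?_, ?_, ?_⟩
    · rw [hσ, finer_nhds]
      refine ⟨A1, hA1, 1 / (4 * n), by positivity, ?_⟩
      intro k hk hkn
      refine ⟨hk, ?_⟩
      intro m _ hmn j
      have h1 : ‖k • s j‖ ≤ 1 / (4 * n) := by
        have := (seqHom_norm_le s k (C := 1 / (4 * n)) (by positivity)).mp hkn.le
        exact this j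
      rw [mul_smul]
      refine (norm_zsmul_le' _ _).trans ?_
      have h2 : |((m : ℤ) : ℝ)| = m := by simp
      rw [h2]
      have h3 : (m : ℝ) ≤ n := by exact_mod_cast hmn
      calc (m : ℝ) * ‖k • s j‖ ≤ n * (1 / (4 * n)) := by
            apply mul_le_mul h3 h1 (norm_nonneg _) hn0.le
        _ = 1 / 4 := by field_simp
    · rintro k ⟨hk1, hk2⟩
      apply hVU k (hA1V hk1)
      have h1 : ‖seqHom s k‖ ≤ 1 / (4 * n) := by
        rw [seqHom_norm_le s k (by positivity)]
        intro j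
        apply norm_le_of_multiples _ n hn1
        intro m hm1 hmn
        rw [smul_smul]
        exact hk2 m hm1 hmn j
      refine lt_of_le_of_lt h1 ?_
      rw [div_lt_iff₀ (by positivity)]
      rw [div_lt_iff₀ (by positivity)] at hn
      linarith
    · intro g hg
      by_cases hgA1 : g ∈ A1
      · have hgA2 : g ∉ A2 := fun h => hg ⟨hgA1, h⟩
        simp only [A2, Set.mem_ofPred_eq] at hgA2
        push Not at hgA2
        obtain ⟨m, hm1, hmn, j, hj⟩ := hgA2
        refine ⟨chr ((m : ℤ) • s j), ?_, ?_, ?_⟩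
        · apply hcont
          apply isContChar_of_small τ hτ
          intro κ hκ
          have hm0 : (0 : ℝ) < m := by exact_mod_cast hm1
          refine Filter.mem_of_superset (char_nhds τ (s j) (hsmem j) (η := κ / m)
            (by positivity)) ?_
          intro k hk
          have hk' : ‖k • s j‖ ≤ κ / m := hk
          simp only [Set.mem_ofPred_eq, chr_apply]
          rw [smul_comm]
          refine (norm_zsmul_le' _ _).trans ?_
          have h2 : |((m : ℤ) : ℝ)| = m := by simp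
          rw [h2]
          rw [le_div_iff₀ hm0] at hk'
          linarith
        · rintro a ⟨_, ha2⟩
          rw [mem_Tplus, chr_apply, smul_smul, mul_comm]
          exact ha2 m hm1 hmn j
        · rw [mem_Tplus, chr_apply, smul_smul, mul_comm]
          push Not
          exact hj
      · obtain ⟨χ, hχ, hχA, hχg⟩ := hA1q g hgA1
        exact ⟨χ, hcont χ hχ, fun a ha => hχA a ha.1, hχg⟩
  -- Hausdorff
  have hσT2 : @T2Space ℤ σ := t2Space_antitone hστ hT2
  -- the Mackey property would make the finer topology coarser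
  have hopen := hmax σ ⟨hσg, hσT2⟩ hlqc hdual
  have hle : τ ≤ σ := hopen
  have hU : {k : ℤ | ‖seqHom s k‖ < 1 / 8} ∈ @nhds ℤ τ 0 := by
    have h1 : {k : ℤ | ‖seqHom s k‖ < 1 / 8} ∈ @nhds ℤ σ 0 := by
      rw [hσ, finer_nhds]
      exact ⟨Set.univ, Filter.univ_mem, 1 / 8, by norm_num, fun k _ hk => hk⟩
    exact nhds_mono hle h1
  obtain ⟨N, hN⟩ := hbohr _ hU
  obtain ⟨r, hr, hr'⟩ := exists_real_lift (s (N + 1))
  obtain ⟨b, hb, hb'⟩ := lev_approx A (N + 1) r hr hr' (1 / 3) (by norm_num)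
  have hdel4 : del (N + 1) ≤ 1 / 16 := by
    have h1 : del (N + 1) ≤ del 1 := del_anti (by omega)
    have h2 : del 1 = 1 / 16 := by unfold del; norm_num
    linarith
  have hbU := hN b (fun j hj => ((hb.1 j (by omega)).1).trans (by linarith))
  have hbs : ‖b • s (N + 1)‖ ≤ 1 / 8 := by
    have h1 : ‖seqHom s b‖ ≤ 1 / 8 := le_of_lt hbU
    exact (seqHom_norm_le s b (by norm_num)).mp h1 _
  have e1 : b • s (N + 1) = (((b : ℝ) * r : ℝ) : UnitAddCircle) := by
    rw [← hr, ← AddCircle.coe_zsmul]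
    simp
  rw [abs_le] at hb'
  have habs : |(b : ℝ) * r| ≤ 1 / 2 := by
    rw [abs_le]; constructor <;> linarith [hb'.1, hb'.2]
  rw [e1, norm_coe_of_abs_le habs, abs_le] at hbs
  linarith [hb'.1, hb'.2, hbs.2]

end Pool.Agent.H62.Mackey
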