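import Pool.Agent.H62.MackeyDefs
import Pool.Agent.H62.MackeyDual
import Mathlib.Topology.Metrizable.Basic

set_option autoImplicit false

namespace Pool.Agent.H62.Mackey

open scoped BigOperators Topology

lemma mem_Tplus (x : UnitAddCircle) : x ∈ Tplus ↔ ‖x‖ ≤ 1 / 4 := by
  constructor
  · rintro ⟨t, ht, rfl⟩
    refine (norm_coe_le_abs t).trans ?_
    rw [abs_le]; exact ⟨ht.1, ht.2⟩
  · intro hx
    obtain ⟨r, hr, hr'⟩ := exists_real_lift x
    refine ⟨r, ?_, hr⟩
    rw [← hr', abs_le] at hx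
    exact ⟨hx.1, hx.2⟩

/-- A family of points of a compact metric space which is uniformly separated is finite. -/
lemma finite_of_separated {ι X : Type*} [PseudoMetricSpace X] [CompactSpace X] (P : Set ι)
    (Φ : ι → X) {δ : ℝ} (hδ : 0 < δ)
    (h : ∀ a ∈ P, ∀ b ∈ P, a ≠ b → δ ≤ dist (Φ a) (Φ b)) : P.Finite := by
  classical
  obtain ⟨t, htfin, ht⟩ := Metric.totallyBounded_iff.mp
    (isCompact_univ (X := X)).totallyBounded (δ / 2) (by positivity)
  have hc : ∀ a : ι, ∃ y ∈ t, dist (Φ a) y < δ / 2 := by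
    intro a
    have := ht (Set.mem_univ (Φ a))
    simp only [Set.mem_iUnion, Metric.mem_ball] at this
    obtain ⟨y, hy, hy'⟩ := this
    exact ⟨y, hy, hy'⟩
  choose c hct hc using hc
  apply Set.Finite.of_injOn (f := c) (t := t) (fun a _ => hct a) _ htfin
  intro a ha b hb hab
  by_contra hne
  have h1 := h a ha b hb hne
  have h2 : dist (Φ a) (Φ b) ≤ dist (Φ a) (c a) + dist (Φ b) (c a) := dist_triangle_right _ _ _
  have h3 := hc a
  have h4 := hc b
  rw [← hab] at h4
  linarith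

section general
variable {G : Type} [AddCommGroup G]

/-- The characters bounded by `1/4` on a neighbourhood of zero in a precompact group form a
finite set. -/
lemma polar_finite (τ : TopologicalSpace G) (hτ : @IsTopologicalAddGroup G τ _)
    (hp : Precompact τ) (U : Set G) (hU : U ∈ @nhds G τ 0) :
    {χ : G →+ UnitAddCircle | ∀ a ∈ U, ‖χ a‖ ≤ 1 / 4}.Finite := by
  classical
  obtain ⟨V, hV, hVV⟩ := exists_nhds_zero_half hU
  have hV0 : (0 : G) ∈ V := mem_of_mem_nhds hV
  obtain ⟨F, hF, hFV⟩ := hp V hV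
  have := hF.fintype
  apply finite_of_separated _ (fun χ : G →+ UnitAddCircle => fun f : F => χ f)
    (δ := 1 / 13) (by norm_num)
  intro χ hχ χ' hχ' hne
  by_contra hlt
  push Not at hlt
  apply hne
  have h8 : ∀ ψ : G →+ UnitAddCircle, (∀ a ∈ U, ‖ψ a‖ ≤ 1 / 4) → ∀ v ∈ V, ‖ψ v‖ ≤ 1 / 8 := by
    intro ψ hψ v hv
    have := norm_le_of_multiples (ψ v) 2 (by norm_num) (by
      intro j h1 h2
      have hj : j = 1 ∨ j = 2 := by omega
      rcases hj with rfl | rfl
      · have := hψ v (by have := hVV v hv 0 hV0; simpa using this)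
        simpa using this
      · have := hψ (v + v) (hVV v hv v hv)
        rw [map_add, ← two_zsmul] at this
        exact this)
    have e : (1 : ℝ) / (4 * ((2 : ℕ) : ℝ)) = 1 / 8 := by norm_num
    rwa [e] at this
  have hall : ∀ g : G, ‖χ g - χ' g‖ < 1 / 3 := by
    intro g
    obtain ⟨f, hf, hgf⟩ := hFV g
    have e1 : χ g - χ' g = (χ f - χ' f) + (χ (g - f) - χ' (g - f)) := by
      rw [map_sub, map_sub]; abel
    have h1 : ‖χ f - χ' f‖ < 1 / 13 := by
      have h2 : dist (χ f) (χ' f) ≤ dist (fun f : F => χ f) (fun f : F => χ' f) :=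
        dist_le_pi_dist (fun f : F => χ f) (fun f : F => χ' f) ⟨f, hf⟩
      rw [← dist_eq_norm]
      exact lt_of_le_of_lt h2 hlt
    have h3 := h8 χ hχ _ hgf
    have h4 := h8 χ' hχ' _ hgf
    rw [e1]
    calc ‖(χ f - χ' f) + (χ (g - f) - χ' (g - f))‖
        ≤ ‖χ f - χ' f‖ + ‖χ (g - f) - χ' (g - f)‖ := norm_add_le _ _
      _ ≤ ‖χ f - χ' f‖ + (‖χ (g - f)‖ + ‖χ' (g - f)‖) := by
          gcongr; exact norm_sub_le _ _
      _ < 1 / 3 := by linarith
  ext g
  have : χ g - χ' g = 0 := by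
    apply eq_zero_of_multiples
    intro k
    have := hall (k • g)
    rwa [map_zsmul, map_zsmul, ← smul_sub] at this
  exact sub_eq_zero.mp this

/-- In a precompact locally quasi-convex group every neighbourhood of zero contains a
neighbourhood defined by finitely many characters. -/
lemma bohr_basis (τ : TopologicalSpace G) (hτ : @IsTopologicalAddGroup G τ _)
    (hp : Precompact τ) (hl : LocallyQuasiConvex τ) (U : Set G) (hU : U ∈ @nhds G τ 0) :
    ∃ S : Set (G →+ UnitAddCircle), S.Finite ∧ (∀ χ ∈ S, IsContChar τ χ) ∧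
      ∀ g : G, (∀ χ ∈ S, ‖χ g‖ ≤ 1 / 4) → g ∈ U := by
  obtain ⟨A, hA, hAU, hAq⟩ := hl U hU
  refine ⟨{χ | IsContChar τ χ ∧ ∀ a ∈ A, ‖χ a‖ ≤ 1 / 4}, ?_, fun χ hχ => hχ.1, ?_⟩
  · exact (polar_finite τ hτ hp A hA).subset (fun χ hχ => hχ.2)
  · intro g hg
    apply hAU
    by_contra hgA
    obtain ⟨χ, hχ, hχA, hχg⟩ := hAq g hgA
    apply hχg
    rw [mem_Tplus]
    exact hg χ ⟨hχ, fun a ha => (mem_Tplus _).mp (hχA a ha)⟩

/-- The set of continuous characters of a metrizable precompact group is countable. -/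
lemma countable_chars (τ : TopologicalSpace G) (hτ : @IsTopologicalAddGroup G τ _)
    (hp : Precompact τ) (hc : (@nhds G τ 0).IsCountablyGenerated) :
    {χ : G →+ UnitAddCircle | IsContChar τ χ}.Countable := by
  obtain ⟨U, hU⟩ := (@nhds G τ 0).exists_antitone_basis
  have hsub : {χ : G →+ UnitAddCircle | IsContChar τ χ} ⊆
      ⋃ n, {χ : G →+ UnitAddCircle | ∀ a ∈ U n, ‖χ a‖ ≤ 1 / 4} := by
    intro χ hχ
    have h1 : {g : G | ‖χ g‖ < 1 / 4} ∈ @nhds G τ 0 := by
      have hχ' : @Continuous G UnitAddCircle τ inferInstance χ := hχ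
      have h2 : Filter.Tendsto χ (@nhds G τ 0) (𝓝 (χ 0)) := @Continuous.tendsto _ _ τ _ _ hχ' 0
      rw [map_zero] at h2
      have h3 : Metric.ball (0 : UnitAddCircle) (1 / 4) ∈ 𝓝 (0 : UnitAddCircle) :=
        Metric.ball_mem_nhds _ (by norm_num)
      have h4 := h2 h3
      have h5 : {g : G | ‖χ g‖ < 1 / 4} = χ ⁻¹' Metric.ball 0 (1 / 4) := by
        ext g
        simp
      rw [h5]
      exact h4
    obtain ⟨n, hn⟩ := hU.1.mem_iff.mp h1
    rw [Set.mem_iUnion]
    exact ⟨n, fun a ha => (hn.2 ha).le⟩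
  refine Set.Countable.mono hsub ?_
  apply Set.countable_iUnion
  intro n
  exact (polar_finite τ hτ hp (U n) (hU.1.mem_of_mem trivial)).countable

end general

end Pool.Agent.H62.Mackey
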